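import Pool.Agent.Helper26.GswShatter

namespace Pool.Agent.Helper26.Gsw

open Real
open scoped Classical

variable {V J : Type*} [Fintype V] [Fintype J]

/-- error bound -/
noncomputable def Ebd (lam : ℝ) (D : ℕ) : ℕ → ℕ → ℝ
  | 0, M => √(2 * log (4 * M))
  | k + 1, M => lam + Ebd lam D k (D * Nat.log 4 M)

theorem Ebd_nonneg {lam : ℝ} (hl : 0 ≤ lam) (D k : ℕ) : ∀ M, 0 ≤ Ebd lam D k M := by
  induction k with
  | zero => intro M; exact sqrt_nonneg _
  | succ k ih => intro M; exact add_nonneg hl (ih _)

theorem dev_add (c : J → V → ℝ) (z y x : V → ℝ) (l : J) :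
    dev c z l x = dev c z l y + dev c y l x := by
  unfold dev
  rw [← Finset.sum_add_distrib]
  refine Finset.sum_congr rfl fun i _ => ?_
  ring

theorem eq_or_of_abs {x : ℝ} (h : |x| = 1) : x = 1 ∨ x = -1 := by
  rcases abs_cases x with ⟨h1, _⟩ | ⟨h1, _⟩
  · left; linarith
  · right; linarith

theorem base_case (c : J → V → ℝ) (hc : ∀ i, ∑ j, c j i ^ 2 ≤ 1) (z : V → ℝ)
    (hz : ∀ i, |z i| ≤ 1) (M : ℕ) (hM : (touched c z).card ≤ M) :
    ∃ χ : V → ℝ, (∀ i, χ i = 1 ∨ χ i = -1) ∧ (∀ i, |z i| = 1 → χ i = z i) ∧
      ∀ j, |dev c z j χ| ≤ √(2 * log (4 * M)) := by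
  rcases Nat.eq_zero_or_pos M with hM0 | hM0
  · have hemp : touched c z = ∅ := by
      rw [← Finset.card_eq_zero]; omega
    refine ⟨fun i => if |z i| = 1 then z i else 1, fun i => ?_, fun i hi => ?_, fun j => ?_⟩
    · by_cases h : |z i| = 1
      · simp only [h, if_true]; exact eq_or_of_abs h
      · simp [h]
    · simp [hi]
    · have : dev c z j (fun i => if |z i| = 1 then z i else 1) = 0 := by
        refine Finset.sum_eq_zero fun i _ => ?_
        by_cases h : c j i = 0
        · rw [h, zero_mul]
        · have h1 : ¬ |z i| < 1 := by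
            intro h2
            have h3 : j ∈ touched c z := by
              simp only [touched, Finset.mem_filter, Finset.mem_univ, true_and]
              exact ⟨i, h, h2⟩
            rw [hemp] at h3
            exact absurd h3 (Finset.notMem_empty j)
          have h2 : |z i| = 1 := le_antisymm (hz i) (not_lt.1 h1)
          simp [h2]
      rw [this, abs_zero]
      exact sqrt_nonneg _
  · have hMr : (1 : ℝ) ≤ M := by exact_mod_cast hM0
    set lam : ℝ := √(2 * log (4 * M)) with hlam
    have hpos : 0 < 2 * log (4 * (M : ℝ)) := by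
      have := Real.log_pos (x := 4 * (M : ℝ)) (by linarith)
      linarith
    have hl : 0 < lam := sqrt_pos.2 hpos
    have hlsq : lam ^ 2 = 2 * log (4 * M) := sq_sqrt hpos.le
    obtain ⟨E, hE, hbd⟩ := bad_prob c hc z hz hl
    have hEf : E (∑ j ∈ touched c z, hit c z lam {j}) < 1 := by
      rw [map_sum]
      calc ∑ j ∈ touched c z, E (hit c z lam {j})
          ≤ ∑ _j ∈ touched c z, 1 / (2 * (M : ℝ)) := by
            refine Finset.sum_le_sum fun j _ => (hbd {j}).trans (le_of_eq ?_)
            rw [Finset.card_singleton, pow_one, hlsq]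
            have : -(2 * log (4 * (M : ℝ)) / 2) = - log (4 * (M : ℝ)) := by ring
            rw [this, exp_neg, exp_log (by positivity)]
            field_simp
            norm_num
        _ = (touched c z).card * (1 / (2 * (M : ℝ))) := by simp
        _ ≤ M * (1 / (2 * (M : ℝ))) := by
            apply mul_le_mul_of_nonneg_right _ (by positivity)
            exact_mod_cast hM
        _ < 1 := by
            field_simp
            norm_num
    obtain ⟨y, hy, hy1⟩ := hE.exists_lt hEf
    have hnb : ∀ j, |dev c z j y| < lam := by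
      intro j
      by_cases hj : j ∈ touched c z
      · by_contra hcon
        push Not at hcon
        have h1 : hit c z lam {j} y ≤ ∑ j ∈ touched c z, hit c z lam {j} y :=
          Finset.single_le_sum (f := fun j => hit c z lam {j} y)
            (fun w _ => hit_nonneg c z lam _ y) hj
        have h2 : hit c z lam {j} y = 1 := by
          unfold hit
          rw [if_pos]
          intro b hb
          rw [Finset.mem_singleton] at hb
          rw [hb]; exact hcon
        rw [Finset.sum_apply] at hy1
        linarith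
      · rw [dev_eq_zero_of_good hy hj, abs_zero]; exact hl
    have habs : ∀ i, |y i| = 1 := by
      intro i
      by_contra hcon
      apply hy.2.1 i
      exact ⟨lt_of_le_of_ne (hy.1.1 i) hcon, fun j _ => hnb j⟩
    refine ⟨y, fun i => eq_or_of_abs (habs i), fun i hi => ?_, fun j => (hnb j).le⟩
    apply hy.2.2 i
    intro h
    have := h.1
    rw [hi] at this
    exact lt_irrefl _ this

theorem recursion (c : J → V → ℝ) (hc : ∀ i, ∑ j, c j i ^ 2 ≤ 1) {D : ℕ} (hD1 : 1 ≤ D)
    (hD : ∀ j, (Finset.univ.filter (Tch c j)).card ≤ D) {lam : ℝ} (hl : 0 < lam)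
    (hlam : 2 * exp (-(lam ^ 2 / 2)) ≤ 1 / (4 * (D : ℝ) ^ 4)) (k : ℕ) :
    ∀ (z : V → ℝ), (∀ i, |z i| ≤ 1) → ∀ M : ℕ, (touched c z).card ≤ M →
      ∃ χ : V → ℝ, (∀ i, χ i = 1 ∨ χ i = -1) ∧ (∀ i, |z i| = 1 → χ i = z i) ∧
        ∀ j, |dev c z j χ| ≤ Ebd lam D k M := by
  induction k with
  | zero => intro z hz M hM; exact base_case c hc z hz M hM
  | succ k ih =>
    intro z hz M hM
    obtain ⟨y, hy, hcl⟩ := shatter c hc hD1 hD z hz hM (k := Nat.log 4 M)
      (Nat.lt_pow_succ_log_self (by norm_num) M) hl hlam
    set K := Nat.log 4 M with hK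
    have hyabs : ∀ i, |y i| ≤ 1 := hy.1.1
    -- auxiliary starting points
    set Z : Finset J → V → ℝ := fun C i =>
      if |y i| = 1 then y i else if ∃ j ∈ C, c j i ≠ 0 then y i else 1 with hZ
    have hZabs : ∀ C i, |Z C i| ≤ 1 := by
      intro C i
      simp only [hZ]
      split_ifs
      · exact hyabs i
      · exact hyabs i
      · simp
    have hZtouch : ∀ C : Finset J, C.card ≤ K → (touched c (Z C)).card ≤ D * K := by
      intro C hC
      have hsub : touched c (Z C) ⊆ C.biUnion (fun j => Finset.univ.filter (Tch c j)) := by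
        intro l hl'
        simp only [touched, Finset.mem_filter, Finset.mem_univ, true_and] at hl'
        obtain ⟨i, h1, h2⟩ := hl'
        simp only [hZ] at h2
        split_ifs at h2 with h3 h4
        · exact absurd h2 (by rw [h3]; exact lt_irrefl _)
        · obtain ⟨j, hj, hji⟩ := h4
          simp only [Finset.mem_biUnion, Finset.mem_filter, Finset.mem_univ, true_and]
          exact ⟨j, hj, i, hji, h1⟩
        · simp at h2
      calc _ ≤ _ := Finset.card_le_card hsub
        _ ≤ ∑ j ∈ C, (Finset.univ.filter (Tch c j)).card := Finset.card_biUnion_le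
        _ ≤ ∑ _j ∈ C, D := Finset.sum_le_sum fun j _ => hD j
        _ = C.card * D := by simp
        _ ≤ K * D := Nat.mul_le_mul_right _ hC
        _ = D * K := Nat.mul_comm _ _
    have hX : ∀ C : Finset J, ∃ χ : V → ℝ, C.card ≤ K → (∀ i, χ i = 1 ∨ χ i = -1) ∧
        (∀ i, |Z C i| = 1 → χ i = Z C i) ∧ ∀ j, |dev c (Z C) j χ| ≤ Ebd lam D k (D * K) := by
      intro C
      by_cases hC : C.card ≤ K
      · obtain ⟨χ, hχ⟩ := ih (Z C) (hZabs C) (D * K) (hZtouch C hC)
        exact ⟨χ, fun _ => hχ⟩
      · exact ⟨fun _ => 1, fun h => absurd h hC⟩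
    choose X hX using hX
    -- bad row through each fractional element
    have hjj : ∀ i, |y i| ≠ 1 → ∃ j, c j i ≠ 0 ∧ lam ≤ |dev c z j y| := by
      intro i h
      by_contra hcon
      push Not at hcon
      apply hy.2.1 i
      exact ⟨lt_of_le_of_ne (hyabs i) h, fun j hj => hcon j hj⟩
    choose jj hjj using hjj
    set r := BRel c z lam y with hr
    have hrs : ∀ a b, r a b → r b a := fun a b h => h.symm
    have hclK : ∀ i (h : |y i| ≠ 1), (cl r (jj i h)).card ≤ K := fun i h => hcl _ (hjj i h).2
    have hself : ∀ j, j ∈ cl r j := fun j => mem_cl.2 Relation.ReflTransGen.refl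
    set χ : V → ℝ := fun i => if h : |y i| = 1 then y i else X (cl r (jj i h)) i with hχ
    have hχ1 : ∀ i, |y i| = 1 → χ i = y i := fun i h => by simp [hχ, h]
    have hχ2 : ∀ i (h : |y i| ≠ 1), χ i = X (cl r (jj i h)) i := fun i h => by simp [hχ, h]
    refine ⟨χ, fun i => ?_, fun i hi => ?_, fun l => ?_⟩
    · by_cases h : |y i| = 1
      · rw [hχ1 i h]; exact eq_or_of_abs h
      · rw [hχ2 i h]; exact (hX _ (hclK i h)).1 i
    · have h1 : y i = z i := by
        apply hy.2.2 i
        intro h
        have := h.1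
        rw [hi] at this
        exact lt_irrefl _ this
      rw [hχ1 i (by rw [h1]; exact hi), h1]
    · rw [dev_add c z y χ l]
      have hbd1 : |dev c z l y| ≤ lam := hy.1.2 l
      have hbd2 : |dev c y l χ| ≤ Ebd lam D k (D * K) := by
        by_cases hex : ∃ i, c l i ≠ 0 ∧ |y i| ≠ 1
        · obtain ⟨i0, hi0, hy0⟩ := hex
          set C := cl r (jj i0 hy0) with hC
          obtain ⟨-, hX2, hX3⟩ := hX C (hclK i0 hy0)
          have heq : dev c y l χ = dev c (Z C) l (X C) := by
            refine Finset.sum_congr rfl fun i _ => ?_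
            by_cases hci : c l i = 0
            · rw [hci, zero_mul, zero_mul]
            · congr 1
              by_cases h : |y i| = 1
              · have hZi : Z C i = y i := by simp [hZ, h]
                rw [hχ1 i h, hX2 i (by rw [hZi]; exact h), hZi]
              · have hrel : r (jj i h) (jj i0 hy0) :=
                  ⟨(hjj i h).2, (hjj i0 hy0).2, l, ⟨i, (hjj i h).1, hci⟩, ⟨i0, hi0, (hjj i0 hy0).1⟩⟩
                have hcc : cl r (jj i h) = C := cl_eq hrs hrel
                have hmem : jj i h ∈ C := by rw [← hcc]; exact hself _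
                have hZi : Z C i = y i := by
                  simp only [hZ, if_neg h]
                  rw [if_pos ⟨jj i h, hmem, (hjj i h).1⟩]
                rw [hχ2 i h, hcc, hZi]
          rw [heq]
          exact hX3 l
        · push Not at hex
          have : dev c y l χ = 0 := by
            refine Finset.sum_eq_zero fun i _ => ?_
            by_cases hci : c l i = 0
            · rw [hci, zero_mul]
            · rw [hχ1 i (hex i hci), sub_self, mul_zero]
          rw [this, abs_zero]
          exact Ebd_nonneg hl.le _ _ _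
      calc |dev c z l y + dev c y l χ| ≤ |dev c z l y| + |dev c y l χ| := abs_add_le _ _
        _ ≤ lam + Ebd lam D k (D * K) := add_le_add hbd1 hbd2
        _ = Ebd lam D (k + 1) M := rfl

theorem iter_nonneg (k : ℕ) : ∀ x : ℝ, 0 ≤ x → 0 ≤ (fun x => log (1 + x))^[k] x := by
  induction k with
  | zero => intro x hx; exact hx
  | succ k ih =>
    intro x hx
    rw [Function.iterate_succ_apply]
    exact ih _ (log_nonneg (by linarith))

theorem Ebd_le {lam : ℝ} {D : ℕ} (hD1 : 1 ≤ D) (k : ℕ) :
    ∀ (M : ℕ) (x : ℝ), 0 ≤ x → log M ≤ 3 * log (2 * D) + x →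
      Ebd lam D k M ≤ k * lam + √(2 * (5 * log (2 * D) + (fun x => log (1 + x))^[k] x)) := by
  have hDr : (1 : ℝ) ≤ D := by exact_mod_cast hD1
  set a := log (2 * (D : ℝ)) with ha
  have hlog2 : log 2 ≤ a := by
    rw [ha]
    exact log_le_log (by norm_num) (by linarith)
  have ha2 : (1 : ℝ) / 2 ≤ a := by
    have := Real.log_two_gt_d9
    linarith
  have hlog4 : log 4 = 2 * log 2 := by
    rw [show (4 : ℝ) = 2 ^ 2 by norm_num, log_pow]; norm_num
  induction k with
  | zero =>
    intro M x hx hM
    simp only [Ebd, Function.iterate_zero, id_eq, Nat.cast_zero, zero_mul, zero_add]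
    apply sqrt_le_sqrt
    have : log (4 * (M : ℝ)) ≤ 2 * a + (3 * a + x) := by
      rcases Nat.eq_zero_or_pos M with h | h
      · rw [h]; simp; linarith
      · have hM' : (M : ℝ) ≠ 0 := by positivity
        rw [log_mul (by norm_num) hM', hlog4]
        linarith
    linarith
  | succ k ih =>
    intro M x hx hM
    have hx' : 0 ≤ log (1 + x) := log_nonneg (by linarith)
    have hnew : log ((D * Nat.log 4 M : ℕ) : ℝ) ≤ 3 * a + log (1 + x) := by
      rcases Nat.eq_zero_or_pos (Nat.log 4 M) with h | h
      · rw [h, mul_zero, Nat.cast_zero, log_zero]; linarith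
      · have hN : (1 : ℝ) ≤ (Nat.log 4 M : ℝ) := by exact_mod_cast h
        have hMpos : M ≠ 0 := by
          rintro rfl
          simp at h
        have h4 : ((4 : ℕ) : ℝ) ^ (Nat.log 4 M) ≤ M := by
          exact_mod_cast Nat.pow_log_le_self 4 hMpos
        have h5 : (Nat.log 4 M : ℝ) * log 4 ≤ log M := by
          have := log_le_log (by positivity) h4
          rw [log_pow] at this
          exact_mod_cast this
        have h6 : (Nat.log 4 M : ℝ) ≤ 3 * a + x := by
          have h7 : (1 : ℝ) ≤ log 4 := by
            rw [hlog4]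
            have := Real.log_two_gt_d9
            linarith
          nlinarith
        push_cast
        rw [log_mul (by positivity) (by positivity)]
        have h8 : log (Nat.log 4 M : ℝ) ≤ log (1 + 3 * a) + log (1 + x) := by
          rw [← log_mul (by positivity) (by positivity)]
          apply log_le_log (by positivity)
          nlinarith
        have h9 : log (1 + 3 * a) ≤ 2 * a := by
          rw [log_le_iff_le_exp (by positivity)]
          have h10 := Real.quadratic_le_exp_of_nonneg (x := 2 * a) (by linarith)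
          nlinarith
        have h11 : log (D : ℝ) ≤ a := by
          rw [ha]; exact log_le_log (by positivity) (by linarith)
        linarith
    have := ih (D * Nat.log 4 M) (log (1 + x)) hx' hnew
    rw [Function.iterate_succ_apply]
    simp only [Ebd]
    push_cast
    linarith

/-- Matrix form: unit columns, every row meets at most `D` rows. -/
theorem matrix_bound (c : J → V → ℝ) (hc : ∀ i, ∑ j, c j i ^ 2 ≤ 1) {D : ℕ}
    (hD : ∀ j, (Finset.univ.filter (Tch c j)).card ≤ D) (k : ℕ) :
    ∃ χ : V → ℤ, (∀ i, χ i = 1 ∨ χ i = -1) ∧ ∀ j, |∑ i, c j i * (χ i : ℝ)| ≤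
      (3 * k + 4) * √(log (2 * D)) + 2 * √((fun x => log (1 + x))^[k] (log (Fintype.card J))) := by
  rcases Nat.eq_zero_or_pos D with hD0 | hD1
  · refine ⟨fun _ => 1, fun _ => Or.inl rfl, fun j => ?_⟩
    have h0 : ∀ i, c j i = 0 := by
      intro i
      by_contra h
      have h1 := hD j
      rw [hD0, Nat.le_zero, Finset.card_eq_zero] at h1
      have : j ∈ Finset.univ.filter (Tch c j) := by
        simp only [Finset.mem_filter, Finset.mem_univ, true_and]
        exact ⟨i, h, h⟩
      rw [h1] at this
      exact absurd this (Finset.notMem_empty j)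
    simp only [h0, zero_mul, Finset.sum_const_zero, abs_zero]
    positivity
  · have hDr : (1 : ℝ) ≤ D := by exact_mod_cast hD1
    set a := log (2 * (D : ℝ)) with ha
    have hlog2 : log 2 ≤ a := by
      rw [ha]
      exact log_le_log (by norm_num) (by linarith)
    have ha2 : (1 : ℝ) / 2 ≤ a := by
      have := Real.log_two_gt_d9
      linarith
    set lam := √(8 * a) with hlamdef
    have hlsq : lam ^ 2 = 8 * a := sq_sqrt (by linarith)
    have hl : 0 < lam := sqrt_pos.2 (by linarith)
    have hlam : 2 * exp (-(lam ^ 2 / 2)) ≤ 1 / (4 * (D : ℝ) ^ 4) := by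
      have h1 : -(lam ^ 2 / 2) = -(((4 : ℕ) : ℝ) * a) := by rw [hlsq]; push_cast; ring
      rw [h1, exp_neg, exp_nat_mul, ha, exp_log (by positivity)]
      rw [mul_pow, ← div_eq_mul_inv]
      rw [div_le_div_iff₀ (by positivity) (by positivity)]
      have : 0 < (D : ℝ) ^ 4 := by positivity
      nlinarith
    have hm0 : 0 ≤ log (Fintype.card J : ℝ) := by
      rcases Nat.eq_zero_or_pos (Fintype.card J) with h | h
      · rw [h]; simp
      · exact log_nonneg (by exact_mod_cast h)
    obtain ⟨χ, h1, -, h3⟩ := recursion c hc hD1 hD hl hlam k (fun _ => 0) (fun i => by simp)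
      (Fintype.card J) (Finset.card_le_univ _)
    have hE := Ebd_le (lam := lam) hD1 k (Fintype.card J) (log (Fintype.card J)) hm0 (by
      rw [← ha]; linarith)
    rw [← ha] at hE
    set Lk := (fun x => log (1 + x))^[k] (log (Fintype.card J : ℝ)) with hLk
    have hLk0 : 0 ≤ Lk := iter_nonneg k _ hm0
    have hfin : k * lam + √(2 * (5 * a + Lk)) ≤ (3 * k + 4) * √a + 2 * √Lk := by
      have s1 : lam ≤ 3 * √a := by
        rw [hlamdef, show (3 : ℝ) * √a = √(9 * a) by
          rw [sqrt_mul (by norm_num), show (9 : ℝ) = 3 ^ 2 by norm_num, sqrt_sq (by norm_num)]]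
        exact sqrt_le_sqrt (by linarith)
      have s2 : √(2 * (5 * a + Lk)) ≤ 4 * √a + 2 * √Lk := by
        have e1 : √(2 * (5 * a + Lk)) ≤ √(10 * a) + √(2 * Lk) := by
          rw [show 2 * (5 * a + Lk) = 10 * a + 2 * Lk by ring]
          have p1 : 0 ≤ 10 * a := by linarith
          have p2 : 0 ≤ 2 * Lk := by linarith
          rw [Real.sqrt_le_left (by positivity)]
          have q1 := sq_sqrt p1
          have q2 := sq_sqrt p2
          nlinarith [mul_nonneg (sqrt_nonneg (10 * a)) (sqrt_nonneg (2 * Lk))]
        have e2 : √(10 * a) ≤ 4 * √a := by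
          rw [show (4 : ℝ) * √a = √(16 * a) by
            rw [sqrt_mul (by norm_num), show (16 : ℝ) = 4 ^ 2 by norm_num, sqrt_sq (by norm_num)]]
          exact sqrt_le_sqrt (by linarith)
        have e3 : √(2 * Lk) ≤ 2 * √Lk := by
          rw [show (2 : ℝ) * √Lk = √(4 * Lk) by
            rw [sqrt_mul (by norm_num), show (4 : ℝ) = 2 ^ 2 by norm_num, sqrt_sq (by norm_num)]]
          exact sqrt_le_sqrt (by linarith)
        linarith
      have s3 : (k : ℝ) * lam ≤ k * (3 * √a) := mul_le_mul_of_nonneg_left s1 (by positivity)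
      nlinarith
    refine ⟨fun i => if χ i = 1 then 1 else -1, fun i => ?_, fun j => ?_⟩
    · by_cases h : χ i = 1
      · left; simp [h]
      · right; simp [h]
    · have e1 : ∀ i, (((if χ i = 1 then 1 else -1 : ℤ)) : ℝ) = χ i := by
        intro i
        rcases h1 i with h | h
        · simp [h]
        · rw [h]; norm_num
      have e2 : ∑ i, c j i * (((if χ i = 1 then 1 else -1 : ℤ)) : ℝ) = dev c (fun _ => 0) j χ := by
        unfold dev
        refine Finset.sum_congr rfl fun i _ => ?_
        rw [e1, sub_zero]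
      rw [e2]
      exact (h3 j).trans (hE.trans hfin)

end Pool.Agent.Helper26.Gsw
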