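import Mathlib

namespace Pool.Agent.Helper26.Gsw

open scoped Classical

variable {J : Type*} [Fintype J]

/-- chains with `n` steps starting at `j` -/
noncomputable def chains (R : J → J → Prop) : ℕ → J → Finset (List J)
  | 0, j => {[j]}
  | n + 1, j => (Finset.univ.filter (R j)).biUnion
      (fun j' => (chains R n j').image (List.cons j))

theorem card_chains (R : J → J → Prop) {D : ℕ}
    (hD : ∀ j, (Finset.univ.filter (R j)).card ≤ D) (n : ℕ) :
    ∀ j, (chains R n j).card ≤ D ^ n := by
  induction n with
  | zero => intro j; simp [chains]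
  | succ n ih =>
    intro j
    unfold chains
    calc _ ≤ ∑ j' ∈ Finset.univ.filter (R j), ((chains R n j').image (List.cons j)).card :=
          Finset.card_biUnion_le
      _ ≤ ∑ _j' ∈ Finset.univ.filter (R j), D ^ n :=
          Finset.sum_le_sum fun j' _ => Finset.card_image_le.trans (ih j')
      _ = (Finset.univ.filter (R j)).card * D ^ n := by simp
      _ ≤ D * D ^ n := Nat.mul_le_mul_right _ (hD j)
      _ = D ^ (n + 1) := by ring

theorem mem_chains (R : J → J → Prop) (l : List J) :
    ∀ j, List.IsChain R (j :: l) → (j :: l) ∈ chains R l.length j := by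
  induction l with
  | nil => intro j _; simp [chains]
  | cons a l ih =>
    intro j h
    rw [List.isChain_cons_cons] at h
    simp only [List.length_cons, chains, Finset.mem_biUnion, Finset.mem_filter, Finset.mem_univ,
      true_and, Finset.mem_image]
    exact ⟨a, h.1, a :: l, ih a h.2, rfl⟩

theorem exit_step {r : J → J → Prop} {P : J → Prop} {j c : J}
    (h : Relation.ReflTransGen r j c) (hj : P j) (hc : ¬ P c) :
    ∃ a b, P a ∧ ¬ P b ∧ r a b := by
  induction h with
  | refl => exact absurd hj hc
  | tail hab hbc ih =>
    rename_i b c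
    by_cases hb : P b
    · exact ⟨b, c, hb, hc, hbc⟩
    · exact ih hb

/-- cluster of `j` with respect to the relation `r` -/
noncomputable def cl (r : J → J → Prop) (j : J) : Finset J :=
  Finset.univ.filter (Relation.ReflTransGen r j)

theorem mem_cl {r : J → J → Prop} {j a : J} : a ∈ cl r j ↔ Relation.ReflTransGen r j a := by
  simp [cl]

theorem long_chain {r : J → J → Prop} (hr : ∀ a b, r a b → r b a) (j : J) (k : ℕ) :
    k + 1 ≤ (cl r j).card → ∃ l : List J, l.IsChain r ∧ l.length = 2 * k + 1 ∧
      l.toFinset.card = k + 1 ∧ j ∈ l ∧ ∀ a ∈ l, a ∈ cl r j := by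
  induction k with
  | zero =>
    intro _
    refine ⟨[j], by simp, by simp, by simp, by simp, ?_⟩
    intro a ha
    rw [List.mem_singleton] at ha
    rw [ha, mem_cl]
  | succ k ih =>
    intro hk
    obtain ⟨l, hl1, hl2, hl3, hl4, hl5⟩ := ih (by omega)
    have hex : ∃ c ∈ cl r j, c ∉ l.toFinset := by
      by_contra hcon
      push Not at hcon
      have := Finset.card_le_card (show cl r j ⊆ l.toFinset from hcon)
      omega
    obtain ⟨c, hc1, hc2⟩ := hex
    rw [mem_cl] at hc1
    obtain ⟨a, b, ha, hb, hab⟩ := exit_step (P := fun x => x ∈ l) hc1 hl4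
      (fun h => hc2 (List.mem_toFinset.2 h))
    obtain ⟨l1, l2, rfl⟩ := List.append_of_mem ha
    have hs := List.isChain_split.1 hl1
    refine ⟨l1 ++ a :: b :: a :: l2, ?_, ?_, ?_, ?_, ?_⟩
    · rw [List.isChain_split]
      refine ⟨hs.1, ?_⟩
      rw [List.isChain_cons_cons, List.isChain_cons_cons]
      exact ⟨hab, hr _ _ hab, hs.2⟩
    · simp only [List.length_append, List.length_cons] at hl2 ⊢
      omega
    · have : (l1 ++ a :: b :: a :: l2).toFinset = insert b (l1 ++ a :: l2).toFinset := by
        ext x
        simp only [List.mem_toFinset, List.mem_append, List.mem_cons, Finset.mem_insert]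
        tauto
      rw [this, Finset.card_insert_of_notMem (fun h => hb (List.mem_toFinset.1 h)), hl3]
    · simp only [List.mem_append, List.mem_cons] at hl4 ⊢
      tauto
    · intro x hx
      by_cases hxb : x = b
      · rw [hxb, mem_cl]
        have := hl5 a ha
        rw [mem_cl] at this
        exact this.tail hab
      · apply hl5
        simp only [List.mem_append, List.mem_cons] at hx ⊢
        tauto

theorem cl_eq {r : J → J → Prop} (hr : ∀ a b, r a b → r b a) {j j' : J} (h : r j j') :
    cl r j = cl r j' := by
  ext x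
  rw [mem_cl, mem_cl]
  exact ⟨fun h1 => Relation.ReflTransGen.head (hr _ _ h) h1,
    fun h1 => Relation.ReflTransGen.head h h1⟩

end Pool.Agent.Helper26.Gsw
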