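import Pool.Agent.Helper26.GswProj

namespace Pool.Agent.Helper26.Gsw

open Real Filter
open scoped RealInnerProductSpace Topology

/-- expectation functional concentrated on `S` -/
structure IsLaw {α : Type*} (S : Set α) (E : (α → ℝ) →ₗ[ℝ] ℝ) : Prop where
  nonneg : ∀ f : α → ℝ, (∀ y ∈ S, 0 ≤ f y) → 0 ≤ E f
  one : E (fun _ => 1) = 1

namespace IsLaw

variable {α : Type*} {S S' : Set α} {E E' : (α → ℝ) →ₗ[ℝ] ℝ}

theorem mono (h : IsLaw S E) {f g : α → ℝ} (hfg : ∀ y ∈ S, f y ≤ g y) : E f ≤ E g := by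
  have h1 := h.nonneg (g - f) (fun y hy => by simpa using hfg y hy)
  rw [map_sub] at h1
  linarith

theorem subset (h : IsLaw S E) (hS : S ⊆ S') : IsLaw S' E :=
  ⟨fun f hf => h.nonneg f (fun y hy => hf y (hS hy)), h.one⟩

theorem dirac {x : α} (hx : x ∈ S) : IsLaw S (LinearMap.proj x : (α → ℝ) →ₗ[ℝ] ℝ) :=
  ⟨fun f hf => hf x hx, rfl⟩

theorem mix (h : IsLaw S E) (h' : IsLaw S E') {w : ℝ} (h0 : 0 ≤ w) (h1 : w ≤ 1) :
    IsLaw S (w • E + (1 - w) • E') := by
  refine ⟨fun f hf => ?_, ?_⟩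
  · simp only [LinearMap.add_apply, LinearMap.smul_apply, smul_eq_mul]
    exact add_nonneg (mul_nonneg h0 (h.nonneg f hf)) (mul_nonneg (by linarith) (h'.nonneg f hf))
  · simp only [LinearMap.add_apply, LinearMap.smul_apply, smul_eq_mul, h.one, h'.one]
    ring

theorem const (h : IsLaw S E) (a : ℝ) : E (fun _ => a) = a := by
  have : (fun _ : α => a) = a • (fun _ : α => (1 : ℝ)) := by
    funext y; simp
  rw [this, map_smul, h.one]; simp

theorem exists_lt (h : IsLaw S E) {f : α → ℝ} (hf : E f < 1) : ∃ y ∈ S, f y < 1 := by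
  by_contra hcon
  push Not at hcon
  have := h.mono (f := fun _ => 1) (g := f) hcon
  rw [h.one] at this
  linarith

end IsLaw

section Walk

variable {V J : Type*} [Fintype V] [Fintype J]

/-- deviation of row `j` from the starting point -/
def dev (c : J → V → ℝ) (z : V → ℝ) (j : J) (x : V → ℝ) : ℝ := ∑ i, c j i * (x i - z i)

/-- feasible points -/
def Feas (c : J → V → ℝ) (L : J → ℝ) (z x : V → ℝ) : Prop :=
  (∀ i, |x i| ≤ 1) ∧ ∀ j, |dev c z j x| ≤ L j

/-- alive coordinates -/
def Alive (c : J → V → ℝ) (L : J → ℝ) (z x : V → ℝ) (i : V) : Prop :=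
  |x i| < 1 ∧ ∀ j, c j i ≠ 0 → |dev c z j x| < L j

variable {c : J → V → ℝ} {L : J → ℝ} {z : V → ℝ}

theorem dev_line (j : J) (x u : V → ℝ) (d : ℝ) :
    dev c z j (fun i => x i + d * u i) = dev c z j x + d * ∑ i, c j i * u i := by
  unfold dev
  rw [Finset.mul_sum, ← Finset.sum_add_distrib]
  refine Finset.sum_congr rfl fun i _ => ?_
  ring

theorem dev_line_tight {x u : V → ℝ} (hu : ∀ i, ¬ Alive c L z x i → u i = 0) {j : J}
    (hj : L j ≤ |dev c z j x|) (d : ℝ) :
    dev c z j (fun i => x i + d * u i) = dev c z j x := by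
  rw [dev_line]
  have : ∑ i, c j i * u i = 0 := by
    refine Finset.sum_eq_zero fun i _ => ?_
    by_cases h : c j i = 0
    · rw [h, zero_mul]
    · rw [hu i (fun ha => absurd (ha.2 j h) (not_lt.2 hj)), mul_zero]
  rw [this, mul_zero, add_zero]

theorem alive_of_alive_line {x u : V → ℝ} (hu : ∀ i, ¬ Alive c L z x i → u i = 0) (d : ℝ) {i : V}
    (hi : Alive c L z (fun i => x i + d * u i) i) : Alive c L z x i := by
  by_contra hcon
  have hui := hu i hcon
  obtain ⟨h1, h2⟩ := hi
  simp only [hui, mul_zero, add_zero] at h1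
  apply hcon
  refine ⟨h1, fun j hj => ?_⟩
  by_contra hcon2
  have h3 := dev_line_tight hu (not_lt.1 hcon2) d
  have h4 := h2 j hj
  rw [h3] at h4
  exact hcon2 h4

theorem step_open {x u : V → ℝ} (hx : Feas c L z x) (hu : ∀ i, ¬ Alive c L z x i → u i = 0) :
    ∀ᶠ d in 𝓝 (0 : ℝ), Feas c L z (fun i => x i + d * u i) := by
  have h1 : ∀ᶠ d in 𝓝 (0 : ℝ), ∀ i, |x i + d * u i| ≤ 1 := by
    rw [Filter.eventually_all]
    intro i
    by_cases hi : Alive c L z x i
    · have hc : Continuous (fun d : ℝ => |x i + d * u i|) := by fun_prop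
      have h2 : (fun d : ℝ => |x i + d * u i|) 0 < 1 := by simpa using hi.1
      filter_upwards [hc.continuousAt.eventually_lt continuousAt_const h2] with d hd
      exact le_of_lt hd
    · refine Filter.Eventually.of_forall fun d => ?_
      rw [hu i hi, mul_zero, add_zero]
      exact hx.1 i
  have h2 : ∀ᶠ d in 𝓝 (0 : ℝ), ∀ j, |dev c z j (fun i => x i + d * u i)| ≤ L j := by
    rw [Filter.eventually_all]
    intro j
    by_cases hj : L j ≤ |dev c z j x|
    · refine Filter.Eventually.of_forall fun d => ?_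
      rw [dev_line_tight hu hj]
      exact hx.2 j
    · have hc : Continuous (fun d : ℝ => |dev c z j x + d * ∑ i, c j i * u i|) := by fun_prop
      have h2 : (fun d : ℝ => |dev c z j x + d * ∑ i, c j i * u i|) 0 < L j := by
        simpa using not_le.1 hj
      filter_upwards [hc.continuousAt.eventually_lt continuousAt_const h2] with d hd
      rw [dev_line]
      exact le_of_lt hd
  filter_upwards [h1, h2] with d e1 e2 using ⟨e1, e2⟩

theorem feas_closed : IsClosed {x : V → ℝ | Feas c L z x} := by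
  have : {x : V → ℝ | Feas c L z x}
      = (⋂ i, {x : V → ℝ | |x i| ≤ 1}) ∩ ⋂ j, {x : V → ℝ | |dev c z j x| ≤ L j} := by
    ext x
    simp [Feas]
  rw [this]
  refine (isClosed_iInter fun i => ?_).inter (isClosed_iInter fun j => ?_)
  · exact isClosed_le (by fun_prop) continuous_const
  · refine isClosed_le ?_ continuous_const
    unfold dev
    fun_prop

theorem step_exists {x u : V → ℝ} (hx : Feas c L z x) (hu : ∀ i, ¬ Alive c L z x i → u i = 0)
    {p : V} (hp : u p ≠ 0) :
    ∃ d : ℝ, 0 < d ∧ Feas c L z (fun i => x i + d * u i) ∧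
      ∃ i, Alive c L z x i ∧ ¬ Alive c L z (fun i => x i + d * u i) i := by
  set T : Set ℝ := {d | 0 ≤ d ∧ Feas c L z (fun i => x i + d * u i)} with hT
  have hTc : IsClosed T := by
    have : T = Set.Ici 0 ∩ (fun (d : ℝ) (i : V) => x i + d * u i) ⁻¹' {x | Feas c L z x} := by
      ext d; simp [hT]
    rw [this]
    exact isClosed_Ici.inter (feas_closed.preimage (by fun_prop))
  have hTb : ∀ d ∈ T, d ≤ 2 / |u p| := by
    intro d hd
    have h1 := hd.2.1 p
    have h2 := hx.1 p
    have hup : 0 < |u p| := abs_pos.2 hp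
    rw [le_div_iff₀ hup]
    have h3 : |d * u p| ≤ 2 := by
      calc |d * u p| = |(x p + d * u p) - x p| := by congr 1; ring
        _ ≤ |x p + d * u p| + |x p| := abs_sub _ _
        _ ≤ 2 := by
          have h1' : |x p + d * u p| ≤ 1 := h1
          linarith
    rw [abs_mul, abs_of_nonneg hd.1] at h3
    exact h3
  have hcomp : IsCompact T := by
    have : T ⊆ Set.Icc 0 (2 / |u p|) := fun d hd => ⟨hd.1, hTb d hd⟩
    exact isCompact_Icc.of_isClosed_subset hTc this
  have hne : T.Nonempty := ⟨0, le_refl _, by simpa using hx⟩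
  obtain ⟨d, hd⟩ := hcomp.exists_isGreatest hne
  have hmore : ∀ x' : V → ℝ, Feas c L z x' → (∀ i, ¬ Alive c L z x' i → u i = 0) →
      ∃ e : ℝ, 0 < e ∧ Feas c L z (fun i => x' i + e * u i) := by
    intro x' hx' hu'
    have h1 := step_open hx' hu'
    rw [Metric.eventually_nhds_iff] at h1
    obtain ⟨ε, hε, h1⟩ := h1
    refine ⟨ε / 2, by positivity, h1 ?_⟩
    rw [Real.dist_eq, sub_zero, abs_of_pos (by positivity)]
    linarith
  have hd0 : 0 < d := by
    obtain ⟨e, he, hfe⟩ := hmore x hx hu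
    exact lt_of_lt_of_le he (hd.2 ⟨he.le, hfe⟩)
  refine ⟨d, hd0, hd.1.2, ?_⟩
  by_contra hcon
  push Not at hcon
  obtain ⟨e, he, hfe⟩ := hmore (fun i => x i + d * u i) hd.1.2
    (fun i hi => hu i (fun h => hi (hcon i h)))
  have h5 : d + e ∈ T := by
    refine ⟨by linarith, ?_⟩
    have : (fun i => x i + (d + e) * u i) = (fun i => x i + d * u i + e * u i) := by
      funext i; ring
    rw [this]; exact hfe
  have := hd.2 h5
  linarith

end Walk

end Pool.Agent.Helper26.Gsw
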