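import Pool.Agent.Helper26.GswMain

namespace Pool.Agent.Helper26.Gsw

open Real Filter
open scoped RealInnerProductSpace Topology Classical

variable {V J : Type*} [Fintype V] [Fintype J]

/-- column vectors -/
noncomputable def col (c : J → V → ℝ) (i : V) : EuclideanSpace ℝ J :=
  WithLp.toLp 2 (fun j => c j i)

theorem norm_col (c : J → V → ℝ) (i : V) : ‖col c i‖ ^ 2 = ∑ j, c j i ^ 2 := by
  rw [EuclideanSpace.norm_sq_eq]
  simp [col]

theorem inner_col (c : J → V → ℝ) (z y : V → ℝ) (θ : J → ℝ) :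
    ⟪(WithLp.toLp 2 θ : EuclideanSpace ℝ J), ∑ i, (y i - z i) • col c i⟫
      = ∑ j, θ j * dev c z j y := by
  rw [PiLp.inner_apply]
  refine Finset.sum_congr rfl fun j _ => ?_
  simp only [col, dev, WithLp.ofLp_sum, WithLp.ofLp_smul, Finset.sum_apply, Pi.smul_apply,
    smul_eq_mul]
  simp only [RCLike.inner_apply, conj_trivial]
  rw [mul_comm]
  congr 1
  refine Finset.sum_congr rfl fun i _ => mul_comm _ _

/-- all rows of `T` reach the threshold -/
noncomputable def hit (c : J → V → ℝ) (z : V → ℝ) (lam : ℝ) (T : Finset J) (y : V → ℝ) : ℝ :=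
  if ∀ j ∈ T, lam ≤ |dev c z j y| then 1 else 0

theorem hit_le (c : J → V → ℝ) (z : V → ℝ) {lam : ℝ} (hl : 0 < lam) (T : Finset J) (y : V → ℝ) :
    hit c z lam T y ≤ ∏ j ∈ T, (exp (lam * dev c z j y - lam ^ 2)
      + exp (-(lam * dev c z j y) - lam ^ 2)) := by
  unfold hit
  split_ifs with h
  · refine Finset.prod_induction _ (fun r => (1 : ℝ) ≤ r) (fun a b ha hb => ?_) le_rfl ?_
    · nlinarith
    · intro j hj
      have h1 := h j hj
      rcases le_total 0 (dev c z j y) with h2 | h2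
      · rw [abs_of_nonneg h2] at h1
        have : 1 ≤ exp (lam * dev c z j y - lam ^ 2) := one_le_exp (by nlinarith)
        linarith [exp_pos (-(lam * dev c z j y) - lam ^ 2)]
      · rw [abs_of_nonpos h2] at h1
        have : 1 ≤ exp (-(lam * dev c z j y) - lam ^ 2) := one_le_exp (by nlinarith)
        linarith [exp_pos (lam * dev c z j y - lam ^ 2)]
  · exact Finset.prod_nonneg fun j _ => by positivity

/-- sign vector with support `T` -/
noncomputable def sg (lam : ℝ) (T T1 : Finset J) : J → ℝ :=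
  fun j => if j ∈ T1 then lam else if j ∈ T then -lam else 0

theorem prod_expand (c : J → V → ℝ) (z : V → ℝ) (lam : ℝ) (T : Finset J) (y : V → ℝ) :
    ∏ j ∈ T, (exp (lam * dev c z j y - lam ^ 2) + exp (-(lam * dev c z j y) - lam ^ 2))
      = ∑ T1 ∈ T.powerset, exp (-(lam ^ 2 * T.card)) *
          mom (col c) (WithLp.toLp 2 (sg lam T T1)) z y := by
  rw [Finset.prod_add]
  refine Finset.sum_congr rfl fun T1 hT1 => ?_
  have hsub : T1 ⊆ T := Finset.mem_powerset.1 hT1
  rw [← exp_sum, ← exp_sum, ← exp_add]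
  unfold mom
  rw [← exp_add, inner_col]
  congr 1
  have e1 : ∑ j, sg lam T T1 j * dev c z j y
      = ∑ j ∈ T1, lam * dev c z j y + ∑ j ∈ T \ T1, -(lam * dev c z j y) := by
    have h1 : ∑ j, sg lam T T1 j * dev c z j y = ∑ j ∈ T, sg lam T T1 j * dev c z j y := by
      symm
      apply Finset.sum_subset (Finset.subset_univ T)
      intro j _ hj
      have : j ∉ T1 := fun h => hj (hsub h)
      simp [sg, hj, this]
    rw [h1, ← Finset.sum_sdiff hsub, add_comm]
    congr 1
    · refine Finset.sum_congr rfl fun j hj => ?_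
      simp [sg, hj]
    · refine Finset.sum_congr rfl fun j hj => ?_
      obtain ⟨h2, h3⟩ := Finset.mem_sdiff.1 hj
      simp [sg, h2, h3]
  have e2 : (T.card : ℝ) = T1.card + (T \ T1).card := by
    rw [Finset.card_sdiff_of_subset hsub]
    have := Finset.card_le_card hsub
    push_cast [Nat.cast_sub this]
    ring
  rw [e1, e2, Finset.sum_sub_distrib, Finset.sum_sub_distrib]
  simp only [Finset.sum_const, nsmul_eq_mul]
  ring

theorem norm_sg (lam : ℝ) {T T1 : Finset J} (h : T1 ⊆ T) :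
    ‖(WithLp.toLp 2 (sg lam T T1) : EuclideanSpace ℝ J)‖ ^ 2 = lam ^ 2 * T.card := by
  rw [EuclideanSpace.norm_sq_eq]
  simp only [Real.norm_eq_abs, sq_abs]
  have h1 : ∑ j, sg lam T T1 j ^ 2 = ∑ j ∈ T, lam ^ 2 := by
    rw [← Finset.sum_subset (Finset.subset_univ T)]
    · refine Finset.sum_congr rfl fun j hj => ?_
      by_cases h2 : j ∈ T1
      · simp [sg, h2]
      · simp [sg, h2, hj]
    · intro j _ hj
      have : j ∉ T1 := fun h' => hj (h h')
      simp [sg, hj, this]
  rw [h1]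
  simp [mul_comm]

theorem bad_prob (c : J → V → ℝ) (hc : ∀ i, ∑ j, c j i ^ 2 ≤ 1) (z : V → ℝ)
    (hz : ∀ i, |z i| ≤ 1) {lam : ℝ} (hl : 0 < lam) :
    ∃ E : ((V → ℝ) → ℝ) →ₗ[ℝ] ℝ, IsLaw (Good c (fun _ => lam) z z) E ∧
      ∀ T : Finset J, E (hit c z lam T) ≤ (2 * exp (-(lam ^ 2 / 2))) ^ T.card := by
  have hv : ∀ i, ‖col c i‖ ≤ 1 := by
    intro i
    have h := norm_col c i
    have h2 := hc i
    rw [← h] at h2
    nlinarith [norm_nonneg (col c i)]
  have hfe : Feas c (fun _ => lam) z z := by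
    refine ⟨hz, fun j => ?_⟩
    simp [dev, hl.le]
  obtain ⟨E, hE, hbd⟩ := walk_main (col c) hv hfe
  refine ⟨E, hE, fun T => ?_⟩
  have h1 : E (hit c z lam T) ≤ E (∑ T1 ∈ T.powerset, exp (-(lam ^ 2 * T.card)) •
      mom (col c) (WithLp.toLp 2 (sg lam T T1)) z) := by
    apply hE.mono
    intro y _
    refine (hit_le c z hl T y).trans (le_of_eq ?_)
    rw [prod_expand, Finset.sum_apply]
    rfl
  refine h1.trans ?_
  rw [map_sum]
  calc ∑ T1 ∈ T.powerset, E (exp (-(lam ^ 2 * T.card)) •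
          mom (col c) (WithLp.toLp 2 (sg lam T T1)) z)
      ≤ ∑ T1 ∈ T.powerset, exp (-(lam ^ 2 * T.card)) * exp (lam ^ 2 * T.card / 2) := by
        refine Finset.sum_le_sum fun T1 hT1 => ?_
        rw [map_smul, smul_eq_mul]
        apply mul_le_mul_of_nonneg_left _ (exp_pos _).le
        have := hbd (WithLp.toLp 2 (sg lam T T1))
        rwa [norm_sg lam (Finset.mem_powerset.1 hT1)] at this
    _ = (2 * exp (-(lam ^ 2 / 2))) ^ T.card := by
        rw [Finset.sum_const, Finset.card_powerset, nsmul_eq_mul, ← exp_add, mul_pow,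
          ← exp_nat_mul]
        push_cast
        congr 2
        ring

end Pool.Agent.Helper26.Gsw
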