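import Pool.Agent.Helper26.GswReal

namespace Pool.Agent.Helper26.Gsw

open Real

theorem cs0 {Γ η e a b : ℝ} (hΓ : 0 ≤ Γ) (hη : 0 ≤ η) (he : 0 ≤ e) (hb : b ^ 2 ≤ e * η)
    (h0 : Γ = 0 → a = 0) : 2 * |a * b| ≤ e * Γ + a ^ 2 / Γ * η := by
  have hA : a ^ 2 / Γ * Γ = a ^ 2 := by
    by_cases h : Γ = 0
    · rw [h0 h, h]; simp
    · field_simp
  have hA0 : 0 ≤ a ^ 2 / Γ := div_nonneg (sq_nonneg _) hΓ
  set A := a ^ 2 / Γ with hAdef
  have h1 : (2 * |a * b|) ^ 2 ≤ (e * Γ + A * η) ^ 2 := by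
    have e1 : (2 * |a * b|) ^ 2 = 4 * (a ^ 2 * b ^ 2) := by
      rw [mul_pow, sq_abs]; ring
    rw [e1]
    have e2 : a ^ 2 * b ^ 2 ≤ (A * Γ) * (e * η) := by
      rw [hA]; exact mul_le_mul_of_nonneg_left hb (sq_nonneg _)
    nlinarith [sq_nonneg (e * Γ - A * η)]
  exact (sq_le_sq₀ (by positivity) (by positivity)).1 h1

theorem cs1 {Γ η e a b : ℝ} (hΓ : 0 ≤ Γ) (hη : 0 ≤ η) (he : 0 ≤ e) (hb : b ^ 2 ≤ e * η)
    (h0 : Γ = 0 → a = 0) : (a + b) ^ 2 / (Γ + η) ≤ e + a ^ 2 / Γ := by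
  have hA : a ^ 2 / Γ * Γ = a ^ 2 := by
    by_cases h : Γ = 0
    · rw [h0 h, h]; simp
    · field_simp
  have hA0 : 0 ≤ a ^ 2 / Γ := div_nonneg (sq_nonneg _) hΓ
  have h2 := cs0 hΓ hη he hb h0
  rcases (add_nonneg hΓ hη).eq_or_lt with hs | hs
  · rw [← hs]; simp; positivity
  · rw [div_le_iff₀ hs]
    nlinarith [le_abs_self (a * b)]

theorem cs2 {Γ η e a b : ℝ} (hΓ : 0 ≤ Γ) (hη : 0 ≤ η) (hs1 : Γ + η ≤ 1) (he : 0 ≤ e)
    (hb : b ^ 2 ≤ e * η) (h0 : Γ = 0 → a = 0) (hab : a * b ≤ 0) :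
    (a + b) ^ 2 / (Γ + η) - 4 * (a * b) ≤ e + a ^ 2 / Γ := by
  have hA : a ^ 2 / Γ * Γ = a ^ 2 := by
    by_cases h : Γ = 0
    · rw [h0 h, h]; simp
    · field_simp
  have hA0 : 0 ≤ a ^ 2 / Γ := div_nonneg (sq_nonneg _) hΓ
  have h2 := cs0 hΓ hη he hb h0
  rcases (add_nonneg hΓ hη).eq_or_lt with hs | hs
  · have hΓ0 : Γ = 0 := by linarith
    have ha : a = 0 := h0 hΓ0
    rw [← hs, ha]; simp; exact he
  · rw [sub_le_iff_le_add, div_le_iff₀ hs]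
    have h3 : -(a * b) ≤ |a * b| := neg_le_abs _
    nlinarith [mul_nonneg (neg_nonneg.2 hab) (sub_nonneg.2 hs1)]

theorem keyJump_nonneg {x Γ η e a b : ℝ} (h1 : -1 ≤ x) (h2 : x ≤ 1) (hΓ : 0 ≤ Γ) (hη : 0 ≤ η)
    (hs : Γ + η ≤ 1) (he : 0 ≤ e) (hb : b ^ 2 ≤ e * η) (h0 : Γ = 0 → a = 0) (ha : 0 ≤ a) :
    exp ((a + b) ^ 2 / (Γ + η) / 2 - (a + b) ^ 2 / 2) * G x (a + b)
      ≤ exp ((e + a ^ 2 / Γ) / 2 - a ^ 2 / 2) * G x a := by
  have c1 := cs1 hΓ hη he hb h0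
  have g1 := G_pos h1 h2 a
  rcases le_total 0 b with hb0 | hb0
  · have h := G_decay' h1 h2 ha (b := a + b) (by linarith)
    calc exp ((a + b) ^ 2 / (Γ + η) / 2 - (a + b) ^ 2 / 2) * G x (a + b)
        ≤ exp ((a + b) ^ 2 / (Γ + η) / 2 - (a + b) ^ 2 / 2) *
            (G x a * exp ((a + b) ^ 2 / 2 - a ^ 2 / 2)) :=
          mul_le_mul_of_nonneg_left h (exp_pos _).le
      _ = exp ((a + b) ^ 2 / (Γ + η) / 2 - a ^ 2 / 2) * G x a := by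
          rw [mul_comm (G x a), ← mul_assoc, ← exp_add]; congr 2; ring
      _ ≤ _ := by
          apply mul_le_mul_of_nonneg_right _ g1.le
          apply exp_le_exp.2; linarith
  · have hab : a * b ≤ 0 := mul_nonpos_of_nonneg_of_nonpos ha hb0
    have c2 := cs2 hΓ hη hs he hb h0 hab
    rcases le_total 0 (a + b) with hc | hc
    · have h := G_mono h1 h2 hc (b := a) (by linarith)
      apply mul_le_mul _ h (G_pos h1 h2 _).le (exp_pos _).le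
      apply exp_le_exp.2
      nlinarith
    · have h := G_le_exp h1 h2 (a + b)
      calc exp ((a + b) ^ 2 / (Γ + η) / 2 - (a + b) ^ 2 / 2) * G x (a + b)
          ≤ exp ((a + b) ^ 2 / (Γ + η) / 2 - (a + b) ^ 2 / 2) * exp ((a + b) ^ 2 / 2) :=
            mul_le_mul_of_nonneg_left h (exp_pos _).le
        _ = exp ((a + b) ^ 2 / (Γ + η) / 2) * 1 := by
            rw [← exp_add, mul_one]; congr 1; ring
        _ ≤ _ := by
            apply mul_le_mul _ (one_le_G h1 h2 a) zero_le_one (exp_pos _).le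
            apply exp_le_exp.2
            nlinarith

theorem keyJump {x Γ η e a b : ℝ} (h1 : -1 ≤ x) (h2 : x ≤ 1) (hΓ : 0 ≤ Γ) (hη : 0 ≤ η)
    (hs : Γ + η ≤ 1) (he : 0 ≤ e) (hb : b ^ 2 ≤ e * η) (h0 : Γ = 0 → a = 0) :
    exp ((a + b) ^ 2 / (Γ + η) / 2 - (a + b) ^ 2 / 2) * G x (a + b)
      ≤ exp ((e + a ^ 2 / Γ) / 2 - a ^ 2 / 2) * G x a := by
  rcases le_total 0 a with ha | ha
  · exact keyJump_nonneg h1 h2 hΓ hη hs he hb h0 ha
  · have := keyJump_nonneg (x := -x) (a := -a) (b := -b) (by linarith) (by linarith) hΓ hη hs he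
      (by rw [neg_sq]; exact hb) (fun h => by rw [h0 h]; simp) (by linarith)
    have e1 : -a + -b = -(a + b) := by ring
    rw [e1, G_symm, G_symm] at this
    simpa only [neg_sq] using this

end Pool.Agent.Helper26.Gsw
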