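import Pool.Agent.Helper26.GswWalk

namespace Pool.Agent.Helper26.Gsw

open Real Filter
open scoped RealInnerProductSpace Topology Classical

variable {V J : Type*} [Fintype V] [Fintype J]
variable {H : Type*} [NormedAddCommGroup H] [InnerProductSpace ℝ H] [FiniteDimensional ℝ H]

/-- finset of alive coordinates -/
noncomputable def As (c : J → V → ℝ) (L : J → ℝ) (z x : V → ℝ) : Finset V :=
  Finset.univ.filter (Alive c L z x)

/-- final points reachable from `x` -/
def Good (c : J → V → ℝ) (L : J → ℝ) (z x : V → ℝ) : Set (V → ℝ) :=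
  {y | Feas c L z y ∧ (∀ i, ¬ Alive c L z y i) ∧ ∀ i, ¬ Alive c L z x i → y i = x i}

/-- span of the vectors of a finset -/
noncomputable def Sp (v : V → H) (B : Finset V) : Submodule ℝ H :=
  Submodule.span ℝ (v '' (B : Set V))

theorem Sp_mono (v : V → H) {B B' : Finset V} (h : B' ⊆ B) : Sp v B' ≤ Sp v B :=
  Submodule.span_mono (Set.image_mono (by exact_mod_cast h))

theorem mem_Sp (v : V → H) {B : Finset V} {i : V} (h : i ∈ B) : v i ∈ Sp v B :=
  Submodule.subset_span ⟨i, by exact_mod_cast h, rfl⟩

/-- moment functional integrand -/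
noncomputable def mom (v : V → H) (θ : H) (x : V → ℝ) (y : V → ℝ) : ℝ :=
  exp ⟪θ, ∑ i, (y i - x i) • v i⟫

variable {c : J → V → ℝ} {L : J → ℝ} {z : V → ℝ}

theorem mom_shift (v : V → H) (θ : H) (x u : V → ℝ) (d : ℝ) (q : H)
    (hq : ∑ i, u i • v i = q) :
    mom v θ x = exp (d * ⟪θ, q⟫) • mom v θ (fun i => x i + d * u i) := by
  funext y
  simp only [mom, Pi.smul_apply, smul_eq_mul]
  rw [← exp_add]
  congr 1
  have : ∑ i, (y i - x i) • v i = d • q + ∑ i, (y i - (x i + d * u i)) • v i := by
    rw [← hq, Finset.smul_sum, ← Finset.sum_add_distrib]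
    refine Finset.sum_congr rfl fun i _ => ?_
    rw [smul_smul, ← add_smul]
    congr 1; ring
  rw [this, inner_add_right, inner_smul_right]

theorem walk (v : V → H) (hv : ∀ i, ‖v i‖ ≤ 1) (n : ℕ) :
    ∀ x, Feas c L z x → (As c L z x).card ≤ n →
      (∀ p ∈ As c L z x, ∃ E : ((V → ℝ) → ℝ) →ₗ[ℝ] ℝ, IsLaw (Good c L z x) E ∧
        ∀ θ, E (mom v θ x) ≤ Phi (Sp v ((As c L z x).erase p)) (v p) θ (x p)) ∧
      (∃ E : ((V → ℝ) → ℝ) →ₗ[ℝ] ℝ, IsLaw (Good c L z x) E ∧
        ∀ θ, E (mom v θ x) ≤ exp (‖(Sp v (As c L z x)).starProjection θ‖ ^ 2 / 2)) := by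
  induction n with
  | zero =>
    intro x hx hcard
    have hemp : As c L z x = ∅ := Finset.card_eq_zero.1 (Nat.le_zero.1 hcard)
    refine ⟨fun p hp => ?_, ?_⟩
    · rw [hemp] at hp; exact absurd hp (Finset.notMem_empty p)
    · refine ⟨LinearMap.proj x, IsLaw.dirac ⟨hx, fun i hi => ?_, fun i _ => rfl⟩, fun θ => ?_⟩
      · have : i ∈ As c L z x := by simp [As, hi]
        rw [hemp] at this
        exact absurd this (Finset.notMem_empty i)
      · simp only [LinearMap.proj_apply, mom, sub_self, zero_smul, Finset.sum_const_zero,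
          inner_zero_right, exp_zero]
        exact one_le_exp (by positivity)
  | succ n ih =>
    intro x hx hcard
    have first : ∀ p ∈ As c L z x, ∃ E : ((V → ℝ) → ℝ) →ₗ[ℝ] ℝ, IsLaw (Good c L z x) E ∧
        ∀ θ, E (mom v θ x) ≤ Phi (Sp v ((As c L z x).erase p)) (v p) θ (x p) := by
      intro p hp
      set U := Sp v ((As c L z x).erase p) with hU
      have hPU : U.starProjection (v p) ∈ Submodule.span ℝ (v '' (((As c L z x).erase p : Finset V) : Set V)) :=
        U.starProjection_apply_mem (v p)
      rw [Submodule.mem_span_image_finset_iff_exists_fun'] at hPU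
      obtain ⟨l, hl⟩ := hPU
      set u : V → ℝ := fun i => if i = p then 1 else if i ∈ (As c L z x).erase p then - l i else 0
        with hu
      have hup : u p = 1 := by simp [hu]
      have husup : ∀ i, ¬ Alive c L z x i → u i = 0 := by
        intro i hi
        have h1 : i ∉ As c L z x := by simp [As, hi]
        have h2 : i ≠ p := fun h => h1 (h ▸ hp)
        have h3 : i ∉ (As c L z x).erase p := fun h => h1 (Finset.mem_of_mem_erase h)
        simp only [hu, if_neg h2, if_neg h3]
      have hsum : ∑ i, u i • v i = v p - U.starProjection (v p) := by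
        rw [← hl]
        have e1 : ∀ i, u i • v i = (if i = p then v p else 0)
            - (if i ∈ (As c L z x).erase p then l i • v i else 0) := by
          intro i
          by_cases h1 : i = p
          · subst h1
            simp [hu]
          · by_cases h2 : i ∈ (As c L z x).erase p
            · simp only [hu, if_neg h1, if_pos h2, neg_smul, zero_sub]
            · simp only [hu, if_neg h1, if_neg h2, zero_smul, sub_zero]
        simp_rw [e1]
        rw [Finset.sum_sub_distrib]
        congr 1
        · simp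
        · rw [← Finset.sum_filter]
          congr 1
          ext i; simp
      -- sub-claim for one endpoint
      have endpt : ∀ d : ℝ, Feas c L z (fun i => x i + d * u i) →
          (∃ i, Alive c L z x i ∧ ¬ Alive c L z (fun i => x i + d * u i) i) →
          ∃ E : ((V → ℝ) → ℝ) →ₗ[ℝ] ℝ, IsLaw (Good c L z x) E ∧
            ∀ θ, E (mom v θ (fun i => x i + d * u i)) ≤ Phi U (v p) θ (x p + d) := by
        intro d hfe hex
        set x' : V → ℝ := fun i => x i + d * u i with hx'
        have hsub : As c L z x' ⊆ As c L z x := by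
          intro i hi
          simp only [As, Finset.mem_filter, Finset.mem_univ, true_and] at hi ⊢
          exact alive_of_alive_line husup d hi
        have hss : As c L z x' ⊂ As c L z x := by
          rw [Finset.ssubset_iff_of_subset hsub]
          obtain ⟨i, h1, h2⟩ := hex
          exact ⟨i, by simp [As, h1], by simp [As, h2]⟩
        have hc' : (As c L z x').card ≤ n := by
          have := Finset.card_lt_card hss
          omega
        have hgood : Good c L z x' ⊆ Good c L z x := by
          intro y hy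
          refine ⟨hy.1, hy.2.1, fun i hi => ?_⟩
          have h1 : ¬ Alive c L z x' i := fun h => hi (alive_of_alive_line husup d h)
          rw [hy.2.2 i h1, hx']
          simp only [husup i hi, mul_zero, add_zero]
        have hxp : x' p = x p + d := by simp [hx', hup]
        have hb := abs_le.1 (hfe.1 p)
        rw [hxp] at hb
        obtain ⟨ih1, ih2⟩ := ih x' hfe hc'
        by_cases hpa : p ∈ As c L z x'
        · obtain ⟨E, hE, hbd⟩ := ih1 p hpa
          refine ⟨E, hE.subset hgood, fun θ => (hbd θ).trans ?_⟩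
          rw [hxp]
          exact Phi_jump (Sp_mono v (Finset.erase_subset_erase p hsub)) (hv p) θ hb.1 hb.2
        · obtain ⟨E, hE, hbd⟩ := ih2
          refine ⟨E, hE.subset hgood, fun θ => (hbd θ).trans ?_⟩
          refine le_trans ?_ (Phi_drop U (hv p) θ hb.1 hb.2)
          apply exp_le_exp.2
          have : As c L z x' ⊆ (As c L z x).erase p := fun i hi =>
            Finset.mem_erase.2 ⟨fun h => hpa (h ▸ hi), hsub hi⟩
          have := proj_mono (Sp_mono v this) θ
          rw [← hU] at this
          linarith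
      obtain ⟨d1, hd1, hf1, he1⟩ := step_exists hx husup (p := p) (by rw [hup]; exact one_ne_zero)
      have husup' : ∀ i, ¬ Alive c L z x i → (fun i => - u i) i = 0 := fun i hi => by
        simp [husup i hi]
      obtain ⟨d2, hd2, hf2, he2⟩ := step_exists hx husup' (p := p)
        (by simp only [hup]; norm_num)
      have erw : (fun i => x i + d2 * (fun i => - u i) i) = fun i => x i + (-d2) * u i := by
        funext i; ring
      rw [erw] at hf2 he2
      obtain ⟨E1, hE1, hb1⟩ := endpt d1 hf1 he1
      obtain ⟨E2, hE2, hb2⟩ := endpt (-d2) hf2 he2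
      have hsum12 : 0 < d1 + d2 := by linarith
      set w : ℝ := d2 / (d1 + d2) with hw
      have hw0 : 0 ≤ w := by positivity
      have hw1 : w ≤ 1 := by rw [hw, div_le_one hsum12]; linarith
      have hw1' : 0 ≤ 1 - w := by linarith
      have hwd : w * d1 - (1 - w) * d2 = 0 := by
        rw [hw]; field_simp; ring
      refine ⟨w • E1 + (1 - w) • E2, hE1.mix hE2 hw0 hw1, fun θ => ?_⟩
      have a1 : E1 (mom v θ x) = exp (d1 * al U (v p) θ) * E1 (mom v θ (fun i => x i + d1 * u i)) := by
        rw [mom_shift v θ x u d1 _ hsum, map_smul, smul_eq_mul]; rfl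
      have a2 : E2 (mom v θ x)
          = exp (-d2 * al U (v p) θ) * E2 (mom v θ (fun i => x i + (-d2) * u i)) := by
        rw [mom_shift v θ x u (-d2) _ hsum, map_smul, smul_eq_mul]; rfl
      simp only [LinearMap.add_apply, LinearMap.smul_apply, smul_eq_mul]
      rw [a1, a2]
      have b1 := mul_le_mul_of_nonneg_left (hb1 θ) (exp_pos (d1 * al U (v p) θ)).le
      have b2 := mul_le_mul_of_nonneg_left (hb2 θ) (exp_pos (-d2 * al U (v p) θ)).le
      set a := al U (v p) θ with ha
      set C := exp ((‖U.starProjection θ‖ ^ 2 + a ^ 2 / ga U (v p)) / 2 - a ^ 2 / 2) with hC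
      have c1 : exp (d1 * a) * Phi U (v p) θ (x p + d1)
          = C * (G (x p) a + d1 * ((exp (a * (1 - x p)) - exp (-(a * (1 + x p)))) / 2)) := by
        rw [← G_shift]; unfold Phi; rw [← ha, ← hC]; ring
      have c2 : exp (-d2 * a) * Phi U (v p) θ (x p + -d2)
          = C * (G (x p) a + -d2 * ((exp (a * (1 - x p)) - exp (-(a * (1 + x p)))) / 2)) := by
        rw [← G_shift]; unfold Phi; rw [← ha, ← hC]; ring
      have c0 : Phi U (v p) θ (x p) = C * G (x p) a := rfl
      rw [c1] at b1
      rw [c2] at b2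
      rw [c0]
      set κ := (exp (a * (1 - x p)) - exp (-(a * (1 + x p)))) / 2 with hκ
      have m1 := mul_le_mul_of_nonneg_left b1 hw0
      have m2 := mul_le_mul_of_nonneg_left b2 hw1'
      calc _ ≤ w * (C * (G (x p) a + d1 * κ)) + (1 - w) * (C * (G (x p) a + -d2 * κ)) :=
            add_le_add m1 m2
        _ = C * G (x p) a + C * κ * (w * d1 - (1 - w) * d2) := by ring
        _ = C * G (x p) a := by rw [hwd]; ring
    refine ⟨first, ?_⟩
    rcases (As c L z x).eq_empty_or_nonempty with hemp | ⟨p, hp⟩
    · exact (ih x hx (by rw [hemp]; simp)).2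
    · obtain ⟨E, hE, hbd⟩ := first p hp
      have hb := abs_le.1 (hx.1 p)
      exact ⟨E, hE, fun θ => (hbd θ).trans
        (Phi_pick (Sp_mono v (Finset.erase_subset p _)) (mem_Sp v hp) θ hb.1 hb.2)⟩

/-- The paused Gram-Schmidt walk. -/
theorem walk_main (v : V → H) (hv : ∀ i, ‖v i‖ ≤ 1) (hz : Feas c L z z) :
    ∃ E : ((V → ℝ) → ℝ) →ₗ[ℝ] ℝ, IsLaw (Good c L z z) E ∧
        ∀ θ : H, E (mom v θ z) ≤ exp (‖θ‖ ^ 2 / 2) := by
  obtain ⟨E, hE, hbd⟩ := (walk (c := c) (L := L) (z := z) v hv _ z hz le_rfl).2
  refine ⟨E, hE, fun θ => (hbd θ).trans ?_⟩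
  apply exp_le_exp.2
  have := Submodule.norm_starProjection_apply_le (Sp v (As c L z z)) θ
  have h0 := norm_nonneg ((Sp v (As c L z z)).starProjection θ)
  nlinarith

end Pool.Agent.Helper26.Gsw
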