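import Pool.Agent.Helper26.GswJump

namespace Pool.Agent.Helper26.Gsw

open Real
open scoped RealInnerProductSpace

variable {H : Type*} [NormedAddCommGroup H] [InnerProductSpace ℝ H] [FiniteDimensional ℝ H]

theorem inner_proj (U : Submodule ℝ H) (x y : H) :
    ⟪x, U.starProjection y⟫ = ⟪U.starProjection x, U.starProjection y⟫ := by
  have h := U.starProjection_inner_eq_zero x (U.starProjection y) (U.starProjection_apply_mem y)
  rw [inner_sub_left] at h
  linarith

theorem inner_proj' (U : Submodule ℝ H) (x y : H) :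
    ⟪U.starProjection x, y⟫ = ⟪U.starProjection x, U.starProjection y⟫ := by
  rw [real_inner_comm, inner_proj, real_inner_comm]

theorem inner_proj_le {U' U : Submodule ℝ H} (h : U' ≤ U) (x y : H) :
    ⟪U.starProjection x, U'.starProjection y⟫ = ⟪U'.starProjection x, U'.starProjection y⟫ := by
  have h1 := U.starProjection_inner_eq_zero x (U'.starProjection y)
    (h (U'.starProjection_apply_mem y))
  rw [inner_sub_left] at h1
  rw [← inner_proj U' x y]
  linarith

theorem inner_diff {U' U : Submodule ℝ H} (h : U' ≤ U) (x y : H) :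
    ⟪U.starProjection x - U'.starProjection x, U.starProjection y - U'.starProjection y⟫
      = ⟪U.starProjection x, U.starProjection y⟫ - ⟪U'.starProjection x, U'.starProjection y⟫ := by
  rw [inner_sub_left, inner_sub_right, inner_sub_right, inner_proj_le h x y,
    real_inner_comm (U.starProjection y) (U'.starProjection x), inner_proj_le h y x,
    real_inner_comm (U'.starProjection x) (U'.starProjection y)]
  ring

theorem norm_sq_diff {U' U : Submodule ℝ H} (h : U' ≤ U) (x : H) :
    ‖U.starProjection x - U'.starProjection x‖ ^ 2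
      = ‖U.starProjection x‖ ^ 2 - ‖U'.starProjection x‖ ^ 2 := by
  rw [← real_inner_self_eq_norm_sq, inner_diff h, real_inner_self_eq_norm_sq,
    real_inner_self_eq_norm_sq]

theorem norm_sq_perp (U : Submodule ℝ H) (x : H) :
    ‖x - U.starProjection x‖ ^ 2 = ‖x‖ ^ 2 - ‖U.starProjection x‖ ^ 2 := by
  rw [← real_inner_self_eq_norm_sq, inner_sub_left, inner_sub_right, inner_sub_right,
    inner_proj U x x, inner_proj' U x x, real_inner_self_eq_norm_sq, real_inner_self_eq_norm_sq]
  ring

theorem proj_mono {U' U : Submodule ℝ H} (h : U' ≤ U) (x : H) :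
    ‖U'.starProjection x‖ ^ 2 ≤ ‖U.starProjection x‖ ^ 2 := by
  have := norm_sq_diff h x
  nlinarith [sq_nonneg ‖U.starProjection x - U'.starProjection x‖]

/-- component of `θ` along the orthogonal part of `v` -/
noncomputable def al (U : Submodule ℝ H) (v θ : H) : ℝ := ⟪θ, v - U.starProjection v⟫

/-- squared norm of the orthogonal part of `v` -/
noncomputable def ga (U : Submodule ℝ H) (v : H) : ℝ := ‖v - U.starProjection v‖ ^ 2

/-- bound function of the pivot phase -/
noncomputable def Phi (U : Submodule ℝ H) (v θ : H) (x : ℝ) : ℝ :=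
  exp ((‖U.starProjection θ‖ ^ 2 + (al U v θ) ^ 2 / ga U v) / 2 - (al U v θ) ^ 2 / 2)
    * G x (al U v θ)

theorem ga_nonneg (U : Submodule ℝ H) (v : H) : 0 ≤ ga U v := sq_nonneg _

theorem ga_le_one (U : Submodule ℝ H) {v : H} (hv : ‖v‖ ≤ 1) : ga U v ≤ 1 := by
  unfold ga
  rw [norm_sq_perp]
  nlinarith [sq_nonneg ‖U.starProjection v‖, norm_nonneg v]

theorem al_zero_of_ga (U : Submodule ℝ H) (v θ : H) (h : ga U v = 0) : al U v θ = 0 := by
  unfold ga at h
  have h1 : v - U.starProjection v = 0 := by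
    rwa [pow_eq_zero_iff two_ne_zero, norm_eq_zero] at h
  unfold al
  rw [h1, inner_zero_right]

theorem Phi_jump {U' U : Submodule ℝ H} (h : U' ≤ U) {v : H} (hv : ‖v‖ ≤ 1) (θ : H) {x : ℝ}
    (h1 : -1 ≤ x) (h2 : x ≤ 1) : Phi U' v θ x ≤ Phi U v θ x := by
  set b : ℝ := ⟪θ, U.starProjection v - U'.starProjection v⟫ with hb
  set e : ℝ := ‖U.starProjection θ - U'.starProjection θ‖ ^ 2 with he
  set η : ℝ := ‖U.starProjection v - U'.starProjection v‖ ^ 2 with hη
  have hal : al U' v θ = al U v θ + b := by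
    unfold al
    rw [hb, ← inner_add_right]
    congr 1
    abel
  have hga : ga U' v = ga U v + η := by
    unfold ga
    rw [norm_sq_perp, norm_sq_perp, hη, norm_sq_diff h]
    ring
  have hee : ‖U.starProjection θ‖ ^ 2 = ‖U'.starProjection θ‖ ^ 2 + e := by
    rw [he, norm_sq_diff h]; ring
  have hbb : b = ⟪U.starProjection θ - U'.starProjection θ,
      U.starProjection v - U'.starProjection v⟫ := by
    rw [inner_diff h, hb, inner_sub_right, inner_proj U, inner_proj U']
  have hcs : b ^ 2 ≤ e * η := by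
    have h3 := abs_real_inner_le_norm (U.starProjection θ - U'.starProjection θ)
      (U.starProjection v - U'.starProjection v)
    rw [← hbb] at h3
    rw [he, hη, ← mul_pow, ← sq_abs b]
    exact pow_le_pow_left₀ (abs_nonneg _) h3 2
  have key := keyJump h1 h2 (ga_nonneg U v) (η := η) (sq_nonneg _)
    (by rw [← hga]; exact ga_le_one U' hv) (e := e) (sq_nonneg _) hcs (al_zero_of_ga U v θ)
  unfold Phi
  rw [hal, hga, hee]
  have k2 := mul_le_mul_of_nonneg_left key (exp_pos (‖U'.starProjection θ‖ ^ 2 / 2)).le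
  calc exp ((‖U'.starProjection θ‖ ^ 2 + (al U v θ + b) ^ 2 / (ga U v + η)) / 2
          - (al U v θ + b) ^ 2 / 2) * G x (al U v θ + b)
      = exp (‖U'.starProjection θ‖ ^ 2 / 2) * (exp ((al U v θ + b) ^ 2 / (ga U v + η) / 2
          - (al U v θ + b) ^ 2 / 2) * G x (al U v θ + b)) := by
        rw [← mul_assoc, ← exp_add]; congr 2; ring
    _ ≤ _ := k2
    _ = _ := by rw [← mul_assoc, ← exp_add]; congr 2; ring

theorem sq_le_div_ga (U : Submodule ℝ H) {v : H} (hv : ‖v‖ ≤ 1) (θ : H) :
    (al U v θ) ^ 2 ≤ (al U v θ) ^ 2 / ga U v := by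
  rcases (ga_nonneg U v).eq_or_lt with h | h
  · rw [al_zero_of_ga U v θ h.symm]; simp
  · rw [le_div_iff₀ h]
    nlinarith [sq_nonneg (al U v θ), ga_le_one U hv]

theorem Phi_drop (U : Submodule ℝ H) {v : H} (hv : ‖v‖ ≤ 1) (θ : H) {x : ℝ}
    (h1 : -1 ≤ x) (h2 : x ≤ 1) : exp (‖U.starProjection θ‖ ^ 2 / 2) ≤ Phi U v θ x := by
  unfold Phi
  rw [← mul_one (exp (‖U.starProjection θ‖ ^ 2 / 2))]
  apply mul_le_mul _ (one_le_G h1 h2 _) zero_le_one (exp_pos _).le
  apply exp_le_exp.2
  linarith [sq_le_div_ga U hv θ]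

theorem Phi_pick {U W : Submodule ℝ H} (hUW : U ≤ W) {v : H} (hvW : v ∈ W) (θ : H) {x : ℝ}
    (h1 : -1 ≤ x) (h2 : x ≤ 1) : Phi U v θ x ≤ exp (‖W.starProjection θ‖ ^ 2 / 2) := by
  set a := al U v θ with ha
  set Γ := ga U v with hΓ
  set q := v - U.starProjection v with hq
  have hen : ‖U.starProjection θ‖ ^ 2 + a ^ 2 / Γ ≤ ‖W.starProjection θ‖ ^ 2 := by
    rcases (ga_nonneg U v).eq_or_lt with h | h
    · rw [ha, al_zero_of_ga U v θ h.symm]
      simp only [ne_eq, OfNat.ofNat_ne_zero, not_false_eq_true, zero_pow, zero_div, add_zero]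
      exact proj_mono hUW θ
    · rw [← hΓ] at h
      set w := U.starProjection θ + (a / Γ) • q with hw
      have hwW : w ∈ W := by
        apply W.add_mem (hUW (U.starProjection_apply_mem θ))
        apply W.smul_mem
        exact W.sub_mem hvW (hUW (U.starProjection_apply_mem v))
      have hqU : ⟪q, U.starProjection θ⟫ = 0 :=
        U.starProjection_inner_eq_zero v _ (U.starProjection_apply_mem θ)
      have hqq : ⟪q, q⟫ = Γ := by rw [real_inner_self_eq_norm_sq]; rfl
      have hθq : ⟪θ, q⟫ = a := rfl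
      have hww : ‖w‖ ^ 2 = ‖U.starProjection θ‖ ^ 2 + a ^ 2 / Γ := by
        rw [← real_inner_self_eq_norm_sq, hw, inner_add_left, inner_add_right, inner_add_right,
          inner_smul_left, inner_smul_left, inner_smul_right, inner_smul_right, hqU,
          real_inner_comm q (U.starProjection θ), hqU, hqq, real_inner_self_eq_norm_sq]
        simp only [mul_zero, add_zero, zero_add, conj_trivial]
        field_simp
      have hθw : ⟪θ, w⟫ = ‖w‖ ^ 2 := by
        rw [hww, hw, inner_add_right, inner_smul_right, hθq, inner_proj,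
          real_inner_self_eq_norm_sq]
        field_simp
      have hPw : ⟪W.starProjection θ, w⟫ = ‖w‖ ^ 2 := by
        have h3 := W.starProjection_inner_eq_zero θ w hwW
        rw [inner_sub_left] at h3
        rw [← hθw]; linarith
      have h4 : ‖w‖ ^ 2 ≤ ‖W.starProjection θ‖ * ‖w‖ := by
        rw [← hPw]; exact real_inner_le_norm _ _
      rw [← hww]
      rcases (norm_nonneg w).eq_or_lt with h5 | h5
      · rw [← h5]; simp
      · have h6 : ‖w‖ ≤ ‖W.starProjection θ‖ := by
          rw [sq] at h4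
          exact le_of_mul_le_mul_right h4 h5
        exact pow_le_pow_left₀ (norm_nonneg _) h6 2
  unfold Phi
  rw [← ha, ← hΓ]
  calc exp ((‖U.starProjection θ‖ ^ 2 + a ^ 2 / Γ) / 2 - a ^ 2 / 2) * G x a
      ≤ exp ((‖U.starProjection θ‖ ^ 2 + a ^ 2 / Γ) / 2 - a ^ 2 / 2) * exp (a ^ 2 / 2) :=
        mul_le_mul_of_nonneg_left (G_le_exp h1 h2 a) (exp_pos _).le
    _ = exp ((‖U.starProjection θ‖ ^ 2 + a ^ 2 / Γ) / 2) := by rw [← exp_add]; congr 1; ring
    _ ≤ _ := by apply exp_le_exp.2; linarith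

end Pool.Agent.Helper26.Gsw
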