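import Mathlib

namespace Pool.Agent.Helper26.Gsw

open Real

/-- Two-point exponential moment with values `1 - x` and `-(1 + x)`. -/
noncomputable def G (x a : ℝ) : ℝ :=
  (1 + x) / 2 * exp (a * (1 - x)) + (1 - x) / 2 * exp (-(a * (1 + x)))

theorem G_symm (x a : ℝ) : G (-x) (-a) = G x a := by
  unfold G
  have e1 : -a * (1 - -x) = -(a * (1 + x)) := by ring
  have e2 : -(-a * (1 + -x)) = a * (1 - x) := by ring
  rw [e1, e2]
  ring

theorem one_le_G {x : ℝ} (h1 : -1 ≤ x) (h2 : x ≤ 1) (a : ℝ) : 1 ≤ G x a := by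
  unfold G
  have e1 : a * (1 - x) + 1 ≤ exp (a * (1 - x)) := add_one_le_exp _
  have e2 : -(a * (1 + x)) + 1 ≤ exp (-(a * (1 + x))) := add_one_le_exp _
  have p : 0 ≤ (1 + x) / 2 := by linarith
  have r : 0 ≤ (1 - x) / 2 := by linarith
  nlinarith [mul_le_mul_of_nonneg_left e1 p, mul_le_mul_of_nonneg_left e2 r]

theorem G_pos {x : ℝ} (h1 : -1 ≤ x) (h2 : x ≤ 1) (a : ℝ) : 0 < G x a :=
  lt_of_lt_of_le one_pos (one_le_G h1 h2 a)

theorem G_zero (x : ℝ) : G x 0 = 1 := by
  unfold G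
  simp
  ring

/-- exponential shift is affine -/
theorem G_shift (x a d : ℝ) :
    exp (d * a) * G (x + d) a = G x a + d * ((exp (a * (1 - x)) - exp (-(a * (1 + x)))) / 2) := by
  unfold G
  have e1 : exp (d * a) * exp (a * (1 - (x + d))) = exp (a * (1 - x)) := by
    rw [← exp_add]; congr 1; ring
  have e2 : exp (d * a) * exp (-(a * (1 + (x + d)))) = exp (-(a * (1 + x))) := by
    rw [← exp_add]; congr 1; ring
  calc exp (d * a) * ((1 + (x + d)) / 2 * exp (a * (1 - (x + d)))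
        + (1 - (x + d)) / 2 * exp (-(a * (1 + (x + d)))))
      = (1 + (x + d)) / 2 * (exp (d * a) * exp (a * (1 - (x + d))))
        + (1 - (x + d)) / 2 * (exp (d * a) * exp (-(a * (1 + (x + d))))) := by ring
    _ = _ := by rw [e1, e2]; ring

theorem G_mono {x : ℝ} (h1 : -1 ≤ x) (h2 : x ≤ 1) {a b : ℝ} (ha : 0 ≤ a) (hab : a ≤ b) :
    G x a ≤ G x b := by
  unfold G
  have p : 0 ≤ (1 + x) / 2 := by linarith
  have r : 0 ≤ (1 - x) / 2 := by linarith
  have e1 : exp (b * (1 - x)) = exp (a * (1 - x)) * exp ((b - a) * (1 - x)) := by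
    rw [← exp_add]; congr 1; ring
  have e2 : exp (-(b * (1 + x))) = exp (-(a * (1 + x))) * exp (-((b - a) * (1 + x))) := by
    rw [← exp_add]; congr 1; ring
  have f1 : (b - a) * (1 - x) + 1 ≤ exp ((b - a) * (1 - x)) := add_one_le_exp _
  have f2 : -((b - a) * (1 + x)) + 1 ≤ exp (-((b - a) * (1 + x))) := add_one_le_exp _
  have g1 : exp (a * (1 - x)) * ((b - a) * (1 - x) + 1) ≤ exp (b * (1 - x)) := by
    rw [e1]; exact mul_le_mul_of_nonneg_left f1 (exp_pos _).le
  have g2 : exp (-(a * (1 + x))) * (-((b - a) * (1 + x)) + 1) ≤ exp (-(b * (1 + x))) := by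
    rw [e2]; exact mul_le_mul_of_nonneg_left f2 (exp_pos _).le
  have g3 : exp (-(a * (1 + x))) ≤ exp (a * (1 - x)) := by
    apply exp_le_exp.2; nlinarith
  have k1 := mul_le_mul_of_nonneg_left g1 p
  have k2 := mul_le_mul_of_nonneg_left g2 r
  have k3 : 0 ≤ (b - a) * ((1 + x) / 2 * (1 - x)) * (exp (a * (1 - x)) - exp (-(a * (1 + x)))) := by
    apply mul_nonneg
    · apply mul_nonneg (by linarith)
      exact mul_nonneg p (by linarith)
    · linarith
  nlinarith [k1, k2, k3]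

theorem exp_aux {a : ℝ} (ha : 0 ≤ a) : 2 * (exp a - 1) ≤ a * (exp a + 1) := by
  have key : MonotoneOn (fun y : ℝ => y * (exp y + 1) - 2 * (exp y - 1)) (Set.Ici 0) := by
    apply monotoneOn_of_deriv_nonneg (convex_Ici 0)
    · fun_prop
    · fun_prop
    · intro y hy
      rw [interior_Ici] at hy
      have hd : HasDerivAt (fun y : ℝ => y * (exp y + 1) - 2 * (exp y - 1))
          (1 * (exp y + 1) + y * (exp y) - 2 * exp y) y := by
        have h1 := (hasDerivAt_id y).mul ((Real.hasDerivAt_exp y).add_const 1)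
        have h2 := ((Real.hasDerivAt_exp y).sub_const 1).const_mul 2
        exact h1.sub h2
      rw [hd.deriv]
      have h3 : 1 - y ≤ exp (-y) := by linarith [add_one_le_exp (-y)]
      have h4 : (1 - y) * exp y ≤ 1 := by
        calc (1 - y) * exp y ≤ exp (-y) * exp y := mul_le_mul_of_nonneg_right h3 (exp_pos _).le
          _ = 1 := by rw [← exp_add]; simp
      nlinarith
  have := key (Set.mem_Ici.2 le_rfl) (Set.mem_Ici.2 ha) ha
  simp at this
  linarith

/-- inequality (H) -/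
theorem H_ineq {x : ℝ} (h1 : -1 ≤ x) (h2 : x ≤ 1) {a : ℝ} (ha : 0 ≤ a) :
    (1 + x) / 2 * ((1 - x) * exp (a * (1 - x))) + (1 - x) / 2 * (-(1 + x) * exp (-(a * (1 + x))))
      ≤ a * G x a := by
  unfold G
  set p : ℝ := (1 + x) / 2 with hp
  set r : ℝ := (1 - x) / 2 with hr
  have p0 : 0 ≤ p := by rw [hp]; linarith
  have r0 : 0 ≤ r := by rw [hr]; linarith
  have pr : p + r = 1 := by rw [hp, hr]; ring
  set w := exp a with hw
  have w1 : 1 ≤ w := by rw [hw]; exact one_le_exp ha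
  set c := exp (-(a * (1 + x))) with hc
  have c0 : 0 < c := exp_pos _
  have e1 : exp (a * (1 - x)) = c * w ^ 2 := by
    rw [hc, hw, ← exp_nat_mul, ← exp_add]; congr 1; push_cast; ring
  rw [e1]
  have ex1 : (1 - x) = 2 * r := by rw [hr]; ring
  have ex2 : (1 + x) = 2 * p := by rw [hp]; ring
  rw [ex1, ex2]
  have key1 : p * r * (w + 1) ^ 2 ≤ p * w ^ 2 + r := by
    have : p * w ^ 2 + r - p * r * (w + 1) ^ 2 = (p * w - r) ^ 2 := by
      have hr' : r = 1 - p := by linarith
      rw [hr']; ring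
    nlinarith [sq_nonneg (p * w - r)]
  have key2 : 2 * (w - 1) ≤ a * (w + 1) := exp_aux ha
  have key3 : 2 * p * r * (w ^ 2 - 1) ≤ a * (p * w ^ 2 + r) := by
    have s1 : (p * r * (w + 1)) * (2 * (w - 1)) ≤ (p * r * (w + 1)) * (a * (w + 1)) :=
      mul_le_mul_of_nonneg_left key2 (by positivity)
    have s2 : a * (p * r * (w + 1) ^ 2) ≤ a * (p * w ^ 2 + r) :=
      mul_le_mul_of_nonneg_left key1 ha
    nlinarith
  have := mul_le_mul_of_nonneg_left key3 c0.le
  nlinarith

theorem G_decay {x : ℝ} (h1 : -1 ≤ x) (h2 : x ≤ 1) {a b : ℝ} (ha : 0 ≤ a) (hab : a ≤ b) :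
    G x b * exp (-(b ^ 2 / 2)) ≤ G x a * exp (-(a ^ 2 / 2)) := by
  have key : AntitoneOn (fun y : ℝ => G x y * exp (-(y ^ 2 / 2))) (Set.Ici 0) := by
    apply antitoneOn_of_deriv_nonpos (convex_Ici 0)
    · unfold G; fun_prop
    · unfold G; fun_prop
    · intro y hy
      rw [interior_Ici] at hy
      have hy0 : 0 ≤ y := le_of_lt hy
      have hG : HasDerivAt (fun y : ℝ => G x y)
          ((1 + x) / 2 * (exp (y * (1 - x)) * (1 - x))
            + (1 - x) / 2 * (exp (-(y * (1 + x))) * (-(1 + x)))) y := by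
        unfold G
        have a1 : HasDerivAt (fun y : ℝ => y * (1 - x)) (1 - x) y := by
          simpa using (hasDerivAt_id y).mul_const (1 - x)
        have a2 : HasDerivAt (fun y : ℝ => -(y * (1 + x))) (-(1 + x)) y := by
          have h := ((hasDerivAt_id' y).mul_const (1 + x)).fun_neg
          rw [one_mul] at h
          exact h
        exact ((a1.exp).const_mul _).add ((a2.exp).const_mul _)
      have hE : HasDerivAt (fun y : ℝ => exp (-(y ^ 2 / 2))) (exp (-(y ^ 2 / 2)) * (-y)) y := by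
        have : HasDerivAt (fun y : ℝ => -(y ^ 2 / 2)) (-y) y := by
          have h := ((hasDerivAt_pow 2 y).div_const 2).fun_neg
          have e : -(((2 : ℕ) : ℝ) * y ^ (2 - 1) / 2) = -y := by norm_num
          rw [e] at h
          exact h
        exact this.exp
      have hd := hG.mul hE
      have hd' : deriv (fun y : ℝ => G x y * exp (-(y ^ 2 / 2))) y = _ := hd.deriv
      rw [hd']
      have hH := H_ineq h1 h2 hy0
      have e0 := exp_pos (-(y ^ 2 / 2))
      have : ((1 + x) / 2 * (exp (y * (1 - x)) * (1 - x))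
            + (1 - x) / 2 * (exp (-(y * (1 + x))) * (-(1 + x)))) - y * G x y ≤ 0 := by
        linarith
      nlinarith [mul_nonneg e0.le (neg_nonneg.2 this)]
  exact key (Set.mem_Ici.2 ha) (Set.mem_Ici.2 (le_trans ha hab)) hab

theorem G_decay' {x : ℝ} (h1 : -1 ≤ x) (h2 : x ≤ 1) {a b : ℝ} (ha : 0 ≤ a) (hab : a ≤ b) :
    G x b ≤ G x a * exp (b ^ 2 / 2 - a ^ 2 / 2) := by
  have h := G_decay h1 h2 ha hab
  have e : exp (b ^ 2 / 2 - a ^ 2 / 2) = exp (-(a ^ 2 / 2)) * exp (b ^ 2 / 2) := by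
    rw [← exp_add]; congr 1; ring
  rw [e, ← mul_assoc]
  have := mul_le_mul_of_nonneg_right h (exp_pos (b ^ 2 / 2)).le
  calc G x b = G x b * exp (-(b ^ 2 / 2)) * exp (b ^ 2 / 2) := by
        rw [mul_assoc, ← exp_add]; simp
    _ ≤ _ := this

theorem G_le_exp {x : ℝ} (h1 : -1 ≤ x) (h2 : x ≤ 1) (a : ℝ) : G x a ≤ exp (a ^ 2 / 2) := by
  rcases le_total 0 a with ha | ha
  · have := G_decay' h1 h2 (le_refl 0) ha
    rw [G_zero] at this
    simpa using this
  · rw [← G_symm]
    have := G_decay' (x := -x) (by linarith) (by linarith) (le_refl 0) (b := -a) (by linarith)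
    rw [G_zero] at this
    simpa using this

end Pool.Agent.Helper26.Gsw
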