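import Pool.Agent.Helper26.GswBad
import Pool.Agent.Helper26.GswChain

namespace Pool.Agent.Helper26.Gsw

open Real
open scoped Classical

variable {V J : Type*} [Fintype V] [Fintype J]

/-- the rows `j` and `l` have a common nonzero column -/
def Tch (c : J → V → ℝ) (j l : J) : Prop := ∃ i, c j i ≠ 0 ∧ c l i ≠ 0

theorem Tch.symm {c : J → V → ℝ} {j l : J} (h : Tch c j l) : Tch c l j := by
  obtain ⟨i, h1, h2⟩ := h; exact ⟨i, h2, h1⟩

/-- two-step relation -/
def Rel (c : J → V → ℝ) (j l : J) : Prop := ∃ r, Tch c j r ∧ Tch c r l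

theorem Rel.symm {c : J → V → ℝ} {j l : J} (h : Rel c j l) : Rel c l j := by
  obtain ⟨i, h1, h2⟩ := h; exact ⟨i, h2.symm, h1.symm⟩

/-- two-step relation inside the rows that reached the threshold -/
def BRel (c : J → V → ℝ) (z : V → ℝ) (lam : ℝ) (y : V → ℝ) (j l : J) : Prop :=
  lam ≤ |dev c z j y| ∧ lam ≤ |dev c z l y| ∧ Rel c j l

theorem BRel.symm {c : J → V → ℝ} {z : V → ℝ} {lam : ℝ} {y : V → ℝ} {j l : J}
    (h : BRel c z lam y j l) : BRel c z lam y l j := ⟨h.2.1, h.1, h.2.2.symm⟩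

theorem card_rel (c : J → V → ℝ) {D : ℕ}
    (hD : ∀ j, (Finset.univ.filter (Tch c j)).card ≤ D) (j : J) :
    (Finset.univ.filter (Rel c j)).card ≤ D ^ 2 := by
  have hsub : Finset.univ.filter (Rel c j) ⊆
      (Finset.univ.filter (Tch c j)).biUnion (fun r => Finset.univ.filter (Tch c r)) := by
    intro l hl
    simp only [Finset.mem_filter, Finset.mem_univ, true_and, Finset.mem_biUnion] at hl ⊢
    exact hl
  calc _ ≤ _ := Finset.card_le_card hsub
    _ ≤ ∑ r ∈ Finset.univ.filter (Tch c j), (Finset.univ.filter (Tch c r)).card :=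
        Finset.card_biUnion_le
    _ ≤ ∑ _r ∈ Finset.univ.filter (Tch c j), D := Finset.sum_le_sum fun r _ => hD r
    _ = (Finset.univ.filter (Tch c j)).card * D := by simp
    _ ≤ D * D := Nat.mul_le_mul_right _ (hD j)
    _ = D ^ 2 := by ring

/-- rows meeting the fractional part -/
noncomputable def touched (c : J → V → ℝ) (z : V → ℝ) : Finset J :=
  Finset.univ.filter (fun l => ∃ i, c l i ≠ 0 ∧ |z i| < 1)

theorem dev_eq_zero_of_good {c : J → V → ℝ} {z : V → ℝ} {L : J → ℝ} {y : V → ℝ}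
    (hy : y ∈ Good c L z z) {l : J} (hl : l ∉ touched c z) : dev c z l y = 0 := by
  refine Finset.sum_eq_zero fun i _ => ?_
  by_cases h : c l i = 0
  · rw [h, zero_mul]
  · have h1 : ¬ |z i| < 1 := by
      intro h2
      apply hl
      simp only [touched, Finset.mem_filter, Finset.mem_univ, true_and]
      exact ⟨i, h, h2⟩
    have h2 : ¬ Alive c L z z i := fun h3 => h1 h3.1
    rw [hy.2.2 i h2, sub_self, mul_zero]

theorem hit_nonneg (c : J → V → ℝ) (z : V → ℝ) (lam : ℝ) (T : Finset J) (y : V → ℝ) :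
    0 ≤ hit c z lam T y := by
  unfold hit; split_ifs <;> norm_num

theorem shatter (c : J → V → ℝ) (hc : ∀ i, ∑ j, c j i ^ 2 ≤ 1) {D : ℕ} (hD1 : 1 ≤ D)
    (hD : ∀ j, (Finset.univ.filter (Tch c j)).card ≤ D) (z : V → ℝ) (hz : ∀ i, |z i| ≤ 1)
    {M k : ℕ} (hM : (touched c z).card ≤ M) (hk : M < 4 ^ (k + 1)) {lam : ℝ} (hl : 0 < lam)
    (hlam : 2 * exp (-(lam ^ 2 / 2)) ≤ 1 / (4 * (D : ℝ) ^ 4)) :
    ∃ y ∈ Good c (fun _ => lam) z z, ∀ j, lam ≤ |dev c z j y| →
      (cl (BRel c z lam y) j).card ≤ k := by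
  obtain ⟨E, hE, hbd⟩ := bad_prob c hc z hz hl
  set q : ℝ := 2 * exp (-(lam ^ 2 / 2)) with hq
  have hq0 : 0 ≤ q := by positivity
  have hDr : (1 : ℝ) ≤ (D : ℝ) := by exact_mod_cast hD1
  have hq1 : q ≤ 1 := by
    refine hlam.trans ?_
    rw [div_le_one (by positivity)]
    have : (1 : ℝ) ≤ (D : ℝ) ^ 4 := one_le_pow₀ hDr
    linarith
  set CH : Finset (J × List J) := (touched c z).biUnion (fun j =>
    ((chains (Rel c) (2 * k) j).filter (fun l => k + 1 ≤ l.toFinset.card)).image (fun l => (j, l)))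
    with hCH
  have hcardCH : (CH.card : ℝ) ≤ M * (D : ℝ) ^ (4 * k) := by
    have h1 : CH.card ≤ M * (D ^ 2) ^ (2 * k) := by
      calc CH.card ≤ ∑ j ∈ touched c z, (((chains (Rel c) (2 * k) j).filter
            (fun l => k + 1 ≤ l.toFinset.card)).image (fun l => (j, l))).card :=
            Finset.card_biUnion_le
        _ ≤ ∑ _j ∈ touched c z, (D ^ 2) ^ (2 * k) := by
            refine Finset.sum_le_sum fun j _ => ?_
            exact Finset.card_image_le.trans ((Finset.card_filter_le _ _).trans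
              (card_chains _ (card_rel c hD) _ _))
        _ = (touched c z).card * (D ^ 2) ^ (2 * k) := by simp
        _ ≤ _ := Nat.mul_le_mul_right _ hM
    have h2 : (CH.card : ℝ) ≤ ((M * (D ^ 2) ^ (2 * k) : ℕ) : ℝ) := by exact_mod_cast h1
    refine h2.trans (le_of_eq ?_)
    push_cast
    rw [← pow_mul]
    congr 2
    ring
  have hEf : E (∑ w ∈ CH, hit c z lam w.2.toFinset) < 1 := by
    rw [map_sum]
    calc ∑ w ∈ CH, E (hit c z lam w.2.toFinset) ≤ ∑ _w ∈ CH, q ^ (k + 1) := by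
          refine Finset.sum_le_sum fun w hw => (hbd _).trans ?_
          have : k + 1 ≤ w.2.toFinset.card := by
            rw [hCH, Finset.mem_biUnion] at hw
            obtain ⟨j, _, hw⟩ := hw
            rw [Finset.mem_image] at hw
            obtain ⟨l, hl', rfl⟩ := hw
            exact (Finset.mem_filter.1 hl').2
          exact pow_le_pow_of_le_one hq0 hq1 this
      _ = CH.card * q ^ (k + 1) := by simp
      _ ≤ (M * (D : ℝ) ^ (4 * k)) * (1 / (4 * (D : ℝ) ^ 4)) ^ (k + 1) := by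
          apply mul_le_mul hcardCH (pow_le_pow_left₀ hq0 hlam _) (by positivity) (by positivity)
      _ = (M : ℝ) / 4 ^ (k + 1) * (1 / (D : ℝ) ^ 4) := by
          have hD0 : (D : ℝ) ≠ 0 := by positivity
          rw [div_pow, one_pow, mul_pow, ← pow_mul, Nat.mul_add, mul_one, pow_add (D : ℝ)]
          field_simp
      _ < 1 := by
          have h1 : (M : ℝ) / 4 ^ (k + 1) < 1 := by
            rw [div_lt_one (by positivity)]
            exact_mod_cast hk
          have h2 : 1 / (D : ℝ) ^ 4 ≤ 1 := by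
            rw [div_le_one (by positivity)]; exact one_le_pow₀ hDr
          have h3 : 0 ≤ (M : ℝ) / 4 ^ (k + 1) := by positivity
          have h4 : 0 ≤ 1 / (D : ℝ) ^ 4 := by positivity
          nlinarith
  obtain ⟨y, hy, hy1⟩ := hE.exists_lt hEf
  refine ⟨y, hy, fun j hj => ?_⟩
  by_contra hcon
  push Not at hcon
  obtain ⟨l, hl1, hl2, hl3, hl4, hl5⟩ :=
    long_chain (r := BRel c z lam y) (fun a b h => h.symm) j k hcon
  have hbadall : ∀ a ∈ l, lam ≤ |dev c z a y| := by
    intro a ha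
    have h1 := hl5 a ha
    rw [mem_cl] at h1
    rcases Relation.ReflTransGen.cases_tail h1 with h2 | ⟨b, _, h2⟩
    · rw [h2]; exact hj
    · exact h2.2.1
  obtain ⟨a, l', rfl⟩ : ∃ a l', l = a :: l' := by
    cases l with
    | nil => simp at hl2
    | cons a l' => exact ⟨a, l', rfl⟩
  have hchain : List.IsChain (Rel c) (a :: l') := hl1.imp (fun _ _ h => h.2.2)
  have hmem := mem_chains (Rel c) l' a hchain
  have hlen : l'.length = 2 * k := by simpa using hl2
  rw [hlen] at hmem
  have hta : a ∈ touched c z := by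
    by_contra h
    have h1 := dev_eq_zero_of_good hy h
    have h2 := hbadall a (by simp)
    rw [h1, abs_zero] at h2
    linarith
  have hCHmem : (a, a :: l') ∈ CH := by
    rw [hCH, Finset.mem_biUnion]
    refine ⟨a, hta, ?_⟩
    rw [Finset.mem_image]
    exact ⟨a :: l', Finset.mem_filter.2 ⟨hmem, by rw [hl3]⟩, rfl⟩
  have h1 : hit c z lam (a :: l').toFinset y ≤ ∑ w ∈ CH, hit c z lam w.2.toFinset y :=
    Finset.single_le_sum (f := fun w : J × List J => hit c z lam w.2.toFinset y)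
      (fun w _ => hit_nonneg c z lam _ y) hCHmem
  have h2 : hit c z lam (a :: l').toFinset y = 1 := by
    unfold hit
    rw [if_pos]
    intro b hb
    exact hbadall b (List.mem_toFinset.1 hb)
  rw [Finset.sum_apply] at hy1
  linarith

end Pool.Agent.Helper26.Gsw
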