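import Pool.Agent.Helper26.GswRec

namespace Pool.Agent.Helper26.LocalBound

open Pool.Agent.Helper26.Gsw

theorem result {V J : Type*} [Fintype V] [Fintype J] (c : J → V → ℝ) (t : ℝ) (D : ℕ)
    (hcol : ∀ i : V, ∑ j : J, c j i ^ 2 ≤ t)
    (hD : ∀ j : J, {l : J | ∃ i : V, c j i ≠ 0 ∧ c l i ≠ 0}.ncard ≤ D) (k : ℕ) :
    ∃ χ : V → ℤ, (∀ i, χ i = 1 ∨ χ i = -1) ∧
      ∀ j : J, |∑ i : V, c j i * (χ i : ℝ)| ≤
        (3 * k + 4) * √(t * Real.log (2 * D)) +
          2 * √(t * (fun x : ℝ => Real.log (1 + x))^[k] (Real.log (Fintype.card J))) := by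
  classical
  rcases isEmpty_or_nonempty V with hV | ⟨⟨i0⟩⟩
  · refine ⟨fun _ => 1, fun i => Or.inl rfl, fun j => ?_⟩
    simp only [Finset.univ_eq_empty, Finset.sum_empty, abs_zero]
    positivity
  have ht0 : 0 ≤ t := le_trans (Finset.sum_nonneg fun j _ => sq_nonneg _) (hcol i0)
  rcases ht0.eq_or_lt with ht | ht
  · refine ⟨fun _ => 1, fun _ => Or.inl rfl, fun j => ?_⟩
    have h0 : ∀ i, c j i = 0 := by
      intro i
      have h1 := hcol i
      rw [← ht] at h1
      have h2 : c j i ^ 2 ≤ ∑ j : J, c j i ^ 2 :=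
        Finset.single_le_sum (f := fun j => c j i ^ 2) (fun j _ => sq_nonneg _)
          (Finset.mem_univ j)
      have h3 : c j i ^ 2 = 0 := le_antisymm (h2.trans h1) (sq_nonneg _)
      exact pow_eq_zero_iff two_ne_zero |>.1 h3
    simp only [h0, zero_mul, Finset.sum_const_zero, abs_zero]
    positivity
  · have hst : 0 < √t := Real.sqrt_pos.2 ht
    have hst2 : √t ^ 2 = t := Real.sq_sqrt ht.le
    obtain ⟨χ, h1, h2⟩ := matrix_bound (fun j i => c j i / √t) (D := D) (fun i => by
        simp only [div_pow, hst2]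
        rw [← Finset.sum_div, div_le_one ht]
        exact hcol i) (fun j => by
        refine le_trans (le_of_eq ?_) (hD j)
        rw [Set.ncard_eq_toFinset_card']
        congr 1
        ext l
        simp only [Tch, Finset.mem_filter, Finset.mem_univ, true_and, Set.mem_toFinset,
          Set.mem_ofPred_eq, ne_eq, div_eq_zero_iff, hst.ne', or_false]) k
    refine ⟨χ, h1, fun j => ?_⟩
    have h3 := mul_le_mul_of_nonneg_left (h2 j) hst.le
    have e1 : √t * |∑ i : V, c j i / √t * (χ i : ℝ)| = |∑ i : V, c j i * (χ i : ℝ)| := by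
      rw [← abs_of_pos hst, ← abs_mul, abs_of_pos hst, Finset.mul_sum]
      congr 1
      refine Finset.sum_congr rfl fun i _ => ?_
      field_simp
    rw [e1] at h3
    refine h3.trans (le_of_eq ?_)
    rw [Real.sqrt_mul ht.le, Real.sqrt_mul ht.le]
    ring

end Pool.Agent.Helper26.LocalBound
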